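import Pool.Agent.TH546.PC.Chain

/-!
The weight of the high polygons.
-/

set_option autoImplicit false

namespace Pool.Agent.TH546.PC

open Pool.Agent.W870.Pg H981 Filter Topology

/-- weight of the high polygons of length below `n` -/
noncomputable def VV (h n : ℕ) : ℝ := ∑ m ∈ Finset.range n, ((VF h m).card : ℝ) * mu⁻¹ ^ m

/-- weight of the marked polygons of length below `Λ` -/
noncomputable def WW (h k Λ : ℕ) : ℝ := ∑ L ∈ Finset.range Λ, ((MG h k L).card : ℝ) * mu⁻¹ ^ L

lemma VV_nonneg (h n : ℕ) : 0 ≤ VV h n := by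
  have := mu_pos
  unfold VV; positivity

lemma WW_nonneg (h k n : ℕ) : 0 ≤ WW h k n := by
  have := mu_pos
  unfold WW; positivity

lemma MG_le (h k L : ℕ) : ((MG h k L).card : ℝ) ≤ (L + 2 * k + 4) * mu ^ (L + 2 * k + 3) := by
  classical
  refine le_trans ?_ (choose_sum L k)
  have h1 : (MG h k L).card ≤ ((CanF L).sigma (fun g => Finset.powersetCard k (cutset g))).card := by
    unfold MG
    exact Finset.card_le_card (Finset.filter_subset _ _)
  rw [Finset.card_sigma] at h1
  calc ((MG h k L).card : ℝ) ≤ ((∑ g ∈ CanF L, (Finset.powersetCard k (cutset g)).card : ℕ) : ℝ) := by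
        exact_mod_cast h1
    _ = _ := by
        push_cast
        apply Finset.sum_congr rfl
        intro g _
        rw [Finset.card_powersetCard]

lemma WW_le (h k Λ : ℕ) : WW h k Λ ≤ Λ * ((Λ + 2 * k + 4) * mu ^ (2 * k + 3)) := by
  have hmu := mu_pos
  unfold WW
  calc ∑ L ∈ Finset.range Λ, ((MG h k L).card : ℝ) * mu⁻¹ ^ L
      ≤ ∑ L ∈ Finset.range Λ, (Λ + 2 * k + 4) * mu ^ (2 * k + 3) := by
        apply Finset.sum_le_sum
        intro L hL
        rw [Finset.mem_range] at hL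
        have h1 := MG_le h k L
        have hLΛ : (L : ℝ) ≤ Λ := by exact_mod_cast hL.le
        calc ((MG h k L).card : ℝ) * mu⁻¹ ^ L
            ≤ ((L + 2 * k + 4) * mu ^ (L + 2 * k + 3)) * mu⁻¹ ^ L := by gcongr
          _ = (L + 2 * k + 4) * mu ^ (2 * k + 3) := by
            have e : mu ^ (L + 2 * k + 3) = mu ^ (2 * k + 3) * mu ^ L := by
              rw [← pow_add]; congr 1; ring
            rw [e, inv_pow]
            have h5 : mu ^ L ≠ 0 := (pow_pos hmu _).ne'
            field_simp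
          _ ≤ _ := by gcongr
    _ = _ := by rw [Finset.sum_const, Finset.card_range, nsmul_eq_mul]

lemma VV_le_WW (h n : ℕ) : VV h n ≤ WW h 0 n := by
  classical
  have hmu := mu_pos
  unfold VV WW
  apply Finset.sum_le_sum
  intro m _
  have h1 : (VF h m).card ≤ (MG h 0 m).card := by
    refine Finset.card_le_card_of_injOn (fun g => ⟨g, ∅⟩) ?_ ?_
    · intro g hg
      rw [Finset.mem_coe, mem_VF] at hg
      rw [Finset.mem_coe, mem_MG]
      refine ⟨⟨⟨hg.1.1, hg.1.2⟩, by simp, by simp⟩, ?_, ?_⟩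
      · have := hg.2
        simp only
        omega
      · intro a ha
        simp at ha
    · intro g _ g' _ hgg
      simpa using hgg
  gcongr

/-- the recursion -/
lemma rec_WW (h k n Λ : ℕ) :
    h * VV h n * WW h k Λ ≤ 2400 * mu ^ 13 * WW h (k + 1) (Λ + n + 14) := by
  have hmu := mu_pos
  have hmu1 : 1 ≤ mu := one_le_mu
  set F : ℕ → ℕ → ℝ := fun m T => ((VF h m).card : ℝ) * (((MG h k (T - m)).card : ℝ) * h) * mu⁻¹ ^ T
    with hF
  have hF0 : ∀ m T, 0 ≤ F m T := fun m T => by rw [hF]; positivity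
  -- left side
  have h1 : h * VV h n * WW h k Λ ≤ ∑ m ∈ Finset.range n,
      ∑ T ∈ (Finset.range (Λ + n)).filter (fun T => m ≤ T), F m T := by
    have e : h * VV h n * WW h k Λ = ∑ m ∈ Finset.range n, ∑ L ∈ Finset.range Λ, F m (L + m) := by
      unfold VV WW
      rw [mul_assoc, Finset.sum_mul_sum, Finset.mul_sum]
      apply Finset.sum_congr rfl
      intro m _
      rw [Finset.mul_sum]
      apply Finset.sum_congr rfl
      intro L _
      rw [hF]
      simp only [Nat.add_sub_cancel, pow_add]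
      ring
    rw [e]
    apply Finset.sum_le_sum
    intro m hm
    rw [Finset.mem_range] at hm
    have e2 : ∑ L ∈ Finset.range Λ, F m (L + m) =
        ∑ T ∈ (Finset.range Λ).image (fun L => L + m), F m T := by
      rw [Finset.sum_image]
      intro a _ b _ hab
      simpa using hab
    rw [e2]
    apply Finset.sum_le_sum_of_subset_of_nonneg
    · intro T hT
      rw [Finset.mem_image] at hT
      obtain ⟨L, hL, rfl⟩ := hT
      rw [Finset.mem_range] at hL
      rw [Finset.mem_filter, Finset.mem_range]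
      omega
    · intro T _ _
      exact hF0 m T
  have h2 : ∑ m ∈ Finset.range n, ∑ T ∈ (Finset.range (Λ + n)).filter (fun T => m ≤ T), F m T =
      ∑ T ∈ Finset.range (Λ + n), ∑ m ∈ (Finset.range n).filter (fun m => m ≤ T), F m T := by
    apply Finset.sum_comm'
    intro m T
    simp only [Finset.mem_filter, Finset.mem_range]
    tauto
  have h3 : ∀ T, ∑ m ∈ (Finset.range n).filter (fun m => m ≤ T), F m T ≤
      800 * (∑ c ∈ ({9, 11, 13} : Finset ℕ), ((MG h (k + 1) (T + c)).card : ℝ)) * mu⁻¹ ^ T := by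
    intro T
    have := chain_ineq h k n T
    have h4 : ((∑ m ∈ (Finset.range n).filter (fun m => m ≤ T),
        (VF h m).card * ((MG h k (T - m)).card * h) : ℕ) : ℝ) ≤
        ((800 * ∑ c ∈ ({9, 11, 13} : Finset ℕ), (MG h (k + 1) (T + c)).card : ℕ) : ℝ) := by
      exact_mod_cast this
    push_cast at h4
    rw [hF]
    simp only
    rw [← Finset.sum_mul]
    gcongr
  have h5 : ∀ c ∈ ({9, 11, 13} : Finset ℕ), ∑ T ∈ Finset.range (Λ + n),
      ((MG h (k + 1) (T + c)).card : ℝ) * mu⁻¹ ^ T ≤ mu ^ 13 * WW h (k + 1) (Λ + n + 14) := by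
    intro c hc
    have hc13 : c ≤ 13 := by
      simp only [Finset.mem_insert, Finset.mem_singleton] at hc
      omega
    have e1 : ∀ T, ((MG h (k + 1) (T + c)).card : ℝ) * mu⁻¹ ^ T =
        mu ^ c * (((MG h (k + 1) (T + c)).card : ℝ) * mu⁻¹ ^ (T + c)) := by
      intro T
      rw [pow_add, inv_pow, inv_pow]
      have h6 : mu ^ T ≠ 0 := (pow_pos hmu _).ne'
      have h7 : mu ^ c ≠ 0 := (pow_pos hmu _).ne'
      field_simp
    have e2 : ∑ T ∈ Finset.range (Λ + n), ((MG h (k + 1) (T + c)).card : ℝ) * mu⁻¹ ^ (T + c) ≤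
        WW h (k + 1) (Λ + n + 14) := by
      unfold WW
      have e3 : ∑ T ∈ Finset.range (Λ + n), ((MG h (k + 1) (T + c)).card : ℝ) * mu⁻¹ ^ (T + c) =
          ∑ L ∈ (Finset.range (Λ + n)).image (fun T => T + c),
            ((MG h (k + 1) L).card : ℝ) * mu⁻¹ ^ L := by
        rw [Finset.sum_image]
        intro a _ b _ hab
        simpa using hab
      rw [e3]
      apply Finset.sum_le_sum_of_subset_of_nonneg
      · intro L hL
        rw [Finset.mem_image] at hL
        obtain ⟨T, hT, rfl⟩ := hL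
        rw [Finset.mem_range] at hT ⊢
        omega
      · intro L _ _
        positivity
    calc ∑ T ∈ Finset.range (Λ + n), ((MG h (k + 1) (T + c)).card : ℝ) * mu⁻¹ ^ T
        = mu ^ c * ∑ T ∈ Finset.range (Λ + n),
            ((MG h (k + 1) (T + c)).card : ℝ) * mu⁻¹ ^ (T + c) := by
          rw [Finset.mul_sum]
          exact Finset.sum_congr rfl (fun T _ => e1 T)
      _ ≤ mu ^ 13 * WW h (k + 1) (Λ + n + 14) := by
          have h7 : mu ^ c ≤ mu ^ 13 := pow_le_pow_right₀ hmu1 hc13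
          exact mul_le_mul h7 e2 (Finset.sum_nonneg (fun T _ => by positivity)) (by positivity)
  calc h * VV h n * WW h k Λ
      ≤ ∑ T ∈ Finset.range (Λ + n), ∑ m ∈ (Finset.range n).filter (fun m => m ≤ T), F m T := by
        rw [← h2]; exact h1
    _ ≤ ∑ T ∈ Finset.range (Λ + n), 800 *
        (∑ c ∈ ({9, 11, 13} : Finset ℕ), ((MG h (k + 1) (T + c)).card : ℝ)) * mu⁻¹ ^ T :=
        Finset.sum_le_sum (fun T _ => h3 T)
    _ = 800 * ∑ c ∈ ({9, 11, 13} : Finset ℕ), ∑ T ∈ Finset.range (Λ + n),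
        ((MG h (k + 1) (T + c)).card : ℝ) * mu⁻¹ ^ T := by
        rw [Finset.sum_comm, Finset.mul_sum]
        apply Finset.sum_congr rfl
        intro T _
        rw [mul_assoc, Finset.sum_mul]
    _ ≤ 800 * ∑ c ∈ ({9, 11, 13} : Finset ℕ), mu ^ 13 * WW h (k + 1) (Λ + n + 14) := by
        exact mul_le_mul_of_nonneg_left (Finset.sum_le_sum h5) (by norm_num)
    _ = 2400 * mu ^ 13 * WW h (k + 1) (Λ + n + 14) := by
        rw [Finset.sum_const]
        have : ({9, 11, 13} : Finset ℕ).card = 3 := by decide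
        rw [this, nsmul_eq_mul]
        push_cast
        ring

lemma iter_WW (h n : ℕ) (k : ℕ) :
    (h * VV h n / (2400 * mu ^ 13)) ^ k * WW h 0 n ≤ WW h k (n + k * (n + 14)) := by
  have hmu := mu_pos
  have hV := VV_nonneg h n
  induction k with
  | zero => simp
  | succ k ih =>
    have h1 := rec_WW h k n (n + k * (n + 14))
    have e : n + k * (n + 14) + n + 14 = n + (k + 1) * (n + 14) := by ring
    rw [e] at h1
    have hp : 0 < 2400 * mu ^ 13 := by positivity
    calc (h * VV h n / (2400 * mu ^ 13)) ^ (k + 1) * WW h 0 n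
        = (h * VV h n / (2400 * mu ^ 13)) *
          ((h * VV h n / (2400 * mu ^ 13)) ^ k * WW h 0 n) := by ring
      _ ≤ (h * VV h n / (2400 * mu ^ 13)) * WW h k (n + k * (n + 14)) := by gcongr
      _ = (h * VV h n * WW h k (n + k * (n + 14))) / (2400 * mu ^ 13) := by ring
      _ ≤ _ := by
        rw [div_le_iff₀ hp]
        linarith

/-- **the weight of the high polygons** -/
theorem VV_bound (h n : ℕ) : h * VV h n ≤ 2400 * mu ^ 15 := by
  have hmu := mu_pos
  have hV := VV_nonneg h n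
  by_contra hcon
  push Not at hcon
  have hp : 0 < 2400 * mu ^ 13 := by positivity
  set ρ : ℝ := h * VV h n / (2400 * mu ^ 13) / mu ^ 2 with hρ
  have hρ1 : 1 < ρ := by
    rw [hρ, div_div, lt_div_iff₀ (by positivity), one_mul]
    calc 2400 * mu ^ 13 * mu ^ 2 = 2400 * mu ^ 15 := by ring
      _ < _ := hcon
  have hVpos : 0 < VV h n := by
    rcases hV.eq_or_lt with h0 | h0
    · exfalso
      rw [← h0, mul_zero] at hcon
      have : 0 < 2400 * mu ^ 15 := by positivity
      linarith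
    · exact h0
  have hW0 : 0 < WW h 0 n := hVpos.trans_le (VV_le_WW h n)
  have key : ∀ k : ℕ, ρ ^ k * WW h 0 n ≤ mu ^ 3 * (n + 20) ^ 2 * ((k : ℝ) + 1) ^ 2 := by
    intro k
    have h1 := (iter_WW h n k).trans (WW_le h k (n + k * (n + 14)))
    have e1 : (h * VV h n / (2400 * mu ^ 13)) ^ k = ρ ^ k * mu ^ (2 * k) := by
      rw [hρ, div_pow _ (mu ^ 2), ← pow_mul]
      have : mu ^ (2 * k) ≠ 0 := (pow_pos hmu _).ne'
      field_simp
    rw [e1] at h1
    have hk0 : (0 : ℝ) ≤ k := Nat.cast_nonneg _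
    have hn0 : (0 : ℝ) ≤ n := Nat.cast_nonneg _
    have b1 : ((n + k * (n + 14) : ℕ) : ℝ) ≤ (n + 20) * (k + 1) := by
      push_cast; nlinarith
    have b2 : ((n + k * (n + 14) : ℕ) : ℝ) + 2 * k + 4 ≤ (n + 20) * (k + 1) := by
      push_cast; nlinarith
    have b0 : (0 : ℝ) ≤ ((n + k * (n + 14) : ℕ) : ℝ) := Nat.cast_nonneg _
    have hpk : 0 < mu ^ (2 * k) := pow_pos hmu _
    have h2 : mu ^ (2 * k) * (ρ ^ k * WW h 0 n) ≤
        mu ^ (2 * k) * (mu ^ 3 * (n + 20) ^ 2 * ((k : ℝ) + 1) ^ 2) := by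
      calc mu ^ (2 * k) * (ρ ^ k * WW h 0 n) = ρ ^ k * mu ^ (2 * k) * WW h 0 n := by ring
        _ ≤ _ := h1
        _ ≤ ((n + 20) * (k + 1)) * (((n + 20) * (k + 1)) * mu ^ (2 * k + 3)) := by gcongr
        _ = _ := by rw [pow_add]; ring
    exact le_of_mul_le_mul_left h2 hpk
  -- contradiction
  have hlim := tendsto_pow_const_div_const_pow_of_one_lt 2 hρ1
  set D : ℝ := mu ^ 3 * (n + 20) ^ 2 with hD
  have hD0 : 0 < D := by positivity
  have hev : ∀ᶠ k : ℕ in atTop, (k : ℝ) ^ 2 / ρ ^ k < WW h 0 n / (8 * D) :=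
    hlim.eventually (gt_mem_nhds (by positivity))
  obtain ⟨k0, hk0⟩ := eventually_atTop.mp hev
  obtain ⟨k, hk⟩ : ∃ k, k = max k0 1 := ⟨_, rfl⟩
  have hk1 := hk0 k (by rw [hk]; exact le_max_left _ _)
  have hk2 : 1 ≤ k := by rw [hk]; exact le_max_right _ _
  have hρk : 0 < ρ ^ k := by positivity
  rw [div_lt_div_iff₀ hρk (by positivity)] at hk1
  have h3 := key k
  have hk3 : (1 : ℝ) ≤ k := by exact_mod_cast hk2
  have h4 : ((k : ℝ) + 1) ^ 2 ≤ 4 * (k : ℝ) ^ 2 := by nlinarith
  have h5 : D * ((k : ℝ) + 1) ^ 2 ≤ D * (4 * (k : ℝ) ^ 2) := by gcongr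
  have h6 : 0 ≤ D * (k : ℝ) ^ 2 := by positivity
  have h7 : 0 < WW h 0 n * ρ ^ k := by positivity
  nlinarith

end Pool.Agent.TH546.PC
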