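import Pool.Agent.TH546.PC.Keep

/-!
Chains of joins: polygons with marked cuts.
-/

set_option autoImplicit false

namespace Pool.Agent.TH546.PC

open Pool.Agent.W870.Pg

/-- high polygons -/
noncomputable def VF (h m : ℕ) : Finset (List V) :=
  open Classical in (CanF m).filter (fun A => 2 * h + 6 ≤ ht A)

lemma mem_VF {h m : ℕ} {A : List V} : A ∈ VF h m ↔ (Can A ∧ A.length = m) ∧ 2 * h + 6 ≤ ht A := by
  unfold VF
  rw [Finset.mem_filter, mem_CanF]

/-- the marked cuts are far below the top -/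
def Low (h : ℕ) (g : List V) (S : Finset ℕ) : Prop :=
  ∀ a ∈ S, ∀ X Y Z : List V, g = X ++ Y ++ Z → X.length = a → Cut X Y Z →
    ∀ v ∈ X ++ Z, v.1 + (h + 5 : ℕ) ≤ ht g

/-- polygons with `k` marked cuts -/
noncomputable def MG (h k L : ℕ) : Finset ((_ : List V) × Finset ℕ) :=
  open Classical in ((CanF L).sigma (fun g => Finset.powersetCard k (cutset g))).filter
    (fun x => h ≤ ht x.1 ∧ Low h x.1 x.2)

lemma mem_MG {h k L : ℕ} {x : (_ : List V) × Finset ℕ} : x ∈ MG h k L ↔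
    (((Can x.1 ∧ x.1.length = L) ∧ (x.2 ⊆ cutset x.1 ∧ x.2.card = k)) ∧ h ≤ ht x.1 ∧ Low h x.1 x.2) := by
  simp only [MG, Finset.mem_filter, Finset.mem_sigma, mem_CanF, Finset.mem_powersetCard]

/-- **one more polygon in the chain** -/
lemma step {h k L m : ℕ} {g : List V} {S : Finset ℕ} (hg : (⟨g, S⟩ : (_ : List V) × Finset ℕ) ∈ MG h k L)
    {A : List V} (hA : A ∈ VF h m) {o : ℕ} (ho : o < h) :
    ∃ (X Y Z : List V) (d : JD),
      (⟨X ++ Y ++ Z, insert X.length S⟩ : (_ : List V) × Finset ℕ) ∈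
        MG h (k + 1) (L + m + (1 + cf d.1 + cf d.2.1)) ∧
      Cut X Y Z ∧ (∀ a ∈ S, a < X.length) ∧
      JR g A ((ht g : ℤ) - o) X Y Z d.1 d.2.1 d.2.2.1 d.2.2.2.1 d.2.2.2.2.1
        (sg d.2.2.2.2.2.1) (sg d.2.2.2.2.2.2) := by
  rw [mem_MG] at hg
  obtain ⟨⟨⟨hgC, hgl⟩, hS, hSc⟩, hgh, hlow⟩ := hg
  simp only at hgC hgl hS hSc hgh hlow
  rw [mem_VF] at hA
  obtain ⟨⟨hAC, hAl⟩, hAh⟩ := hA
  obtain ⟨X, Y, Z, kA, kB, bA, bB, bM, σA, σB, hσA, hσB, hJ, hC, hcut, hlen⟩ :=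
    join' hgC hAC (s := (ht g : ℤ) - o) (by omega) (by omega) (by omega)
  have hht := ht_join hJ hC
  have hkeep : ∀ a ∈ S, ∃ X0 Y0 Z0, X ++ Y ++ Z = X0 ++ Y0 ++ Z0 ∧ X0.length = a ∧ Cut X0 Y0 Z0 ∧
      a < X.length ∧ ∀ v ∈ X0 ++ Z0, v.1 + (h + 5 : ℕ) ≤ ht g := by
    intro a ha
    obtain ⟨b, X0, Y0, Z0, h1, h2, h3, h4⟩ := mem_cutset.mp (hS ha)
    have h5 := hlow a ha X0 Y0 Z0 h1 h2 h4
    obtain ⟨Y0', e1, e2, e3⟩ := keep hσA hσB hJ hcut h1 h4 (fun v hv => by
      have := h5 v hv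
      push_cast at this
      omega)
    exact ⟨X0, Y0', Z0, e1, h2, e2, by omega, h5⟩
  obtain ⟨eA, rfl⟩ := exists_sg hσA
  obtain ⟨eB, rfl⟩ := exists_sg hσB
  refine ⟨X, Y, Z, (kA, kB, bA, bB, bM, eA, eB), ?_, hcut, ?_, hJ⟩
  · rw [mem_MG]
    simp only
    refine ⟨⟨⟨hC, by rw [hlen, hgl, hAl]; ring⟩, ?_, ?_⟩, ?_, ?_⟩
    · intro a ha
      rw [Finset.mem_insert] at ha
      rw [mem_cutset]
      rcases ha with rfl | ha
      · exact ⟨_, X, Y, Z, rfl, rfl, rfl, hcut⟩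
      · obtain ⟨X0, Y0, Z0, e1, e2, e3, -, -⟩ := hkeep a ha
        exact ⟨_, X0, Y0, Z0, e1, e2, rfl, e3⟩
    · rw [Finset.card_insert_of_notMem, hSc]
      intro hX
      obtain ⟨X0, Y0, Z0, -, -, -, e4, -⟩ := hkeep _ hX
      omega
    · omega
    · intro a ha X' Y' Z' h1 h2 h3 v hv
      rw [Finset.mem_insert] at ha
      rcases ha with rfl | ha
      · obtain ⟨rfl, rfl, rfl⟩ := cut_unique hC rfl h1 hcut h3 h2.symm
        have := (JR_lev hσA hσB hJ hcut).2.1 v hv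
        push_cast
        omega
      · obtain ⟨X0, Y0, Z0, e1, e2, e3, -, e5⟩ := hkeep a ha
        obtain ⟨rfl, rfl, rfl⟩ := cut_unique hC e1 h1 e3 h3 (by omega)
        have := e5 v hv
        push_cast at this ⊢
        omega
  · intro a ha
    obtain ⟨X0, Y0, Z0, -, -, -, e4, -⟩ := hkeep a ha
    exact e4

/-- the data of a step -/
noncomputable def SS (h k n T : ℕ) : Finset ((_ : ℕ) × (List V × ((_ : List V) × Finset ℕ) × ℕ)) :=
  open Classical in ((Finset.range n).filter (fun m => m ≤ T)).sigma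
    (fun m => VF h m ×ˢ MG h k (T - m) ×ˢ Finset.range h)

lemma SS_card (h k n T : ℕ) : (SS h k n T).card =
    ∑ m ∈ (Finset.range n).filter (fun m => m ≤ T), (VF h m).card * ((MG h k (T - m)).card * h) := by
  unfold SS
  rw [Finset.card_sigma]
  have : (open Classical in (Finset.range n).filter (fun m => m ≤ T)) =
      (Finset.range n).filter (fun m => m ≤ T) := by congr
  rw [this]
  apply Finset.sum_congr rfl
  intro m _
  rw [Finset.card_product, Finset.card_product, Finset.card_range]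

/-- the results of a step -/
noncomputable def RS (h k T : ℕ) : Finset (((_ : ℕ) × ((_ : List V) × Finset ℕ)) × JD) :=
  (({9, 11, 13} : Finset ℕ).sigma (fun c => MG h (k + 1) (T + c))) ×ˢ (Finset.univ : Finset JD)

lemma RS_card (h k T : ℕ) : (RS h k T).card =
    (∑ c ∈ ({9, 11, 13} : Finset ℕ), (MG h (k + 1) (T + c)).card) * 800 := by
  unfold RS
  rw [Finset.card_product, card_JD, Finset.card_sigma]

/-- the relation between the data and the results -/
def RL (x : (_ : ℕ) × (List V × ((_ : List V) × Finset ℕ) × ℕ))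
    (y : ((_ : ℕ) × ((_ : List V) × Finset ℕ)) × JD) : Prop :=
  ∃ X Y Z : List V, y.1.2.1 = X ++ Y ++ Z ∧ Cut X Y Z ∧ y.1.2.2 = insert X.length x.2.2.1.2 ∧
    (∀ a ∈ x.2.2.1.2, a < X.length) ∧
    JR x.2.2.1.1 x.2.1 ((ht x.2.2.1.1 : ℤ) - x.2.2.2) X Y Z y.2.1 y.2.2.1 y.2.2.2.1 y.2.2.2.2.1
      y.2.2.2.2.2.1 (sg y.2.2.2.2.2.2.1) (sg y.2.2.2.2.2.2.2)

theorem step_card (h k n T : ℕ) : (SS h k n T).card ≤ (RS h k T).card := by
  classical
  refine Finset.card_le_card_of_forall_subsingleton RL ?_ ?_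
  · rintro ⟨m, A, ⟨g, S⟩, o⟩ hx
    simp only [SS, Finset.mem_sigma, Finset.mem_filter, Finset.mem_range, Finset.mem_product] at hx
    obtain ⟨⟨hmn, hmT⟩, hA, hg, ho⟩ := hx
    obtain ⟨X, Y, Z, d, h1, h2, h3, h4⟩ := step hg hA ho
    refine ⟨(⟨1 + cf d.1 + cf d.2.1, ⟨X ++ Y ++ Z, insert X.length S⟩⟩, d), ?_, ?_⟩
    · simp only [RS, Finset.mem_product, Finset.mem_sigma, Finset.mem_univ, and_true]
      refine ⟨?_, ?_⟩
      · unfold cf
        simp only [Finset.mem_insert, Finset.mem_singleton]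
        split_ifs <;> omega
      · have e : T - m + m = T := by omega
        rw [e] at h1
        exact h1
    · exact ⟨X, Y, Z, rfl, h2, rfl, h3, h4⟩
  · rintro ⟨⟨c, ⟨g, S⟩⟩, d⟩ hy
    simp only [RS, Finset.mem_product, Finset.mem_sigma, Finset.mem_univ, and_true] at hy
    have hg := (mem_MG.mp hy.2).1.1.1
    simp only at hg
    rintro ⟨m, A, ⟨g1, S1⟩, o⟩ hx ⟨m', A', ⟨g1', S1'⟩, o'⟩ hx'
    simp only [Set.mem_ofPred_eq, SS, Finset.mem_sigma, Finset.mem_filter, Finset.mem_range,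
      Finset.mem_product] at hx hx'
    obtain ⟨⟨⟨hmn, hmT⟩, hA, hg1, ho⟩, X, Y, Z, h1, h2, h3, h4, h5⟩ := hx
    obtain ⟨⟨⟨hmn', hmT'⟩, hA', hg1', ho'⟩, X', Y', Z', h1', h2', h3', h4', h5'⟩ := hx'
    simp only at h1 h2 h3 h4 h5 h1' h2' h3' h4' h5'
    have hlen : X.length = X'.length := by
      have a1 : X.length ∈ insert X'.length S1' := by rw [← h3', h3]; simp
      have a2 : X'.length ∈ insert X.length S1 := by rw [← h3, h3']; simp
      rw [Finset.mem_insert] at a1 a2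
      rcases a1 with a1 | a1
      · exact a1
      · rcases a2 with a2 | a2
        · exact a2.symm
        · have b1 := h4' _ a1
          have b2 := h4 _ a2
          omega
    obtain ⟨rfl, rfl, rfl⟩ := cut_unique hg h1 h1' h2 h2' hlen
    obtain ⟨rfl, rfl, f3⟩ := JR_inj h5 h5'
    have f4 : o = o' := by omega
    have hS : S1 = S1' := by
      have e1 : S1 = S.erase X.length := by
        rw [h3, Finset.erase_insert]
        intro hX
        exact lt_irrefl _ (h4 _ hX)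
      have e2 : S1' = S.erase X.length := by
        rw [h3', Finset.erase_insert]
        intro hX
        exact lt_irrefl _ (h4' _ hX)
      rw [e1, e2]
    have hm : m = m' := by
      have a1 := (mem_VF.mp hA).1.2
      have a2 := (mem_VF.mp hA').1.2
      omega
    subst f4 hS hm
    rfl

/-- **The chain inequality** -/
theorem chain_ineq (h k n T : ℕ) :
    ∑ m ∈ (Finset.range n).filter (fun m => m ≤ T), (VF h m).card * ((MG h k (T - m)).card * h) ≤
    800 * ∑ c ∈ ({9, 11, 13} : Finset ℕ), (MG h (k + 1) (T + c)).card := by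
  have := step_card h k n T
  rw [SS_card, RS_card] at this
  omega

end Pool.Agent.TH546.PC
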