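import Pool.Agent.W870.Pg.JCount

/-!
The join of two polygons, when the top of the union is in the second one.
-/

set_option autoImplicit false

namespace Pool.Agent.TH546.PC

open Pool.Agent.W870.Pg

/-- **The join** -/
theorem join' {A B : List V} (hA : Can A) (hB : Can B) {s : ℤ} (hs1 : 1 ≤ s)
    (hs2 : s ≤ ht A) (hAB : (ht A : ℤ) < s + ht B) :
    ∃ (X Y Z : List V) (kA kB : Fin 5) (bA bB bM : Bool) (σA σB : ℤ),
      (σA = 1 ∨ σA = -1) ∧ (σB = 1 ∨ σB = -1) ∧
      JR A B s X Y Z kA kB bA bB bM σA σB ∧ Can (X ++ Y ++ Z) ∧ Cut X Y Z ∧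
      (X ++ Y ++ Z).length = A.length + B.length + 1 + cf kA + cf kB := by
  obtain ⟨K2, y, a, yb, ab, hu, hw, hd, hgap, hctl, hctl2⟩ :=
    contact hA hB (H := s + ht B) hs1 hs2 rfl
  set K1 : ℤ := s + ht B with hK1
  have hyb : yb ≤ ht B := Can.le_ht hw
  have hya : y ≤ ht A := Can.le_ht hu
  have hd' := abs_le.mp hd
  -- choose the signs
  obtain ⟨σA, σB, hσA, hσB, hrow, hfA, hfB⟩ : ∃ σA σB : ℤ, (σA = 1 ∨ σA = -1) ∧
      (σB = 1 ∨ σB = -1) ∧
      ((K1 - yb = y ∧ K1 - yb - σB = y + σA) ∨ (K1 - yb = y + σA ∧ K1 - yb - σB = y)) ∧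
      (∃ (k : Fin 5) (L1 L2 : List V),
        (A = L1 ++ old k σA y a ++ L2 ∨ A.reverse = L1 ++ old k σA y a ++ L2) ∧
          Fresh A k σA y a) ∧
      (∃ (k : Fin 5) (L1 L2 : List V),
        (B = L1 ++ old k σB yb ab ++ L2 ∨ B.reverse = L1 ++ old k σB yb ab ++ L2) ∧
          Fresh B k σB yb ab) := by
    have cA : ∀ v : V, (v ∈ A ∨ v = (0, 0)) → |v.1 - (y + (K1 - yb - y))| ≤ 1 → v.2 ≤ a := by
      intro v hv h
      have := hctl v (yb, ab) hv hw (by
        simp only
        rw [abs_le] at h ⊢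
        omega)
      simp only at this
      omega
    have cB : ∀ v : V, (v ∈ B ∨ v = (0, 0)) → |v.1 - (yb + (K1 - yb - y))| ≤ 1 → v.2 ≤ ab := by
      intro v hv h
      have := hctl (y, a) v hu hv (by
        simp only
        rw [abs_le] at h ⊢
        omega)
      simp only at this
      omega
    by_cases h0 : K1 - yb - y = 0
    · refine ⟨1, -1, by simp, by simp, by left; omega, ?_, ?_⟩
      · refine finger0 hA hu (by simp) (by omega) (fun v hv h => cA v hv ?_)
        rw [h0, add_zero]; exact h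
      · refine finger0 hB hw (by simp) (by omega) (fun v hv h => cB v hv ?_)
        rw [h0, add_zero]; exact h
    · have hd1 : K1 - yb - y = 1 ∨ K1 - yb - y = -1 := by omega
      refine ⟨K1 - yb - y, K1 - yb - y, hd1, hd1, by right; omega, ?_, ?_⟩
      · refine finger1 hA hu hd1 (by omega) cA (fun v hv h => ?_)
        have := hctl2 h0 v (yb, ab) hv hw (by simp only; omega)
        simp only at this
        omega
      · refine finger1 hB hw hd1 (by omega) cB (fun v hv h => ?_)
        have := hctl2 h0 (y, a) v hu hv (by simp only; omega)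
        simp only at this
        omega
  obtain ⟨kA, L1, L2, hL, hF⟩ := hfA
  obtain ⟨bA, X, Z, fA⟩ := split hA hσA hL hF
  obtain ⟨kB, L1', L2', hL', hF'⟩ := hfB
  obtain ⟨bB, P, R, fB⟩ := split hB hσB hL' hF'
  clear hL hF hL' hF' L1 L2 L1' L2'
  set K : V := (K1, K2) with hK
  set M : List V := (R ++ (0, 0) :: P).map (fun v => K - v) with hM
  -- elements of `M`
  have hMel : ∀ w ∈ M, ∃ w' : V, w = K - w' ∧ (w' ∈ P ++ R ∨ w' = (0, 0)) := by
    intro w hw
    rw [hM, List.mem_map] at hw
    obtain ⟨w', hw', rfl⟩ := hw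
    refine ⟨w', rfl, ?_⟩
    simp only [List.mem_append, List.mem_cons] at hw' ⊢
    tauto
  have hMel2 : ∀ w ∈ M, ∃ w' : V, w = K - w' ∧ (w' = (0, 0) ∨ lexpos w') ∧
      ((w' ∈ B ∨ w' = (0, 0)) ∨ (ab ≤ w'.2 ∧ w'.2 ≤ ab + 2 ∧ |w'.1 - yb| ≤ 1)) := by
    intro w hw
    obtain ⟨w', h1, h2⟩ := hMel w hw
    refine ⟨w', h1, ?_, ?_⟩
    · rcases h2 with h2 | h2
      · exact Or.inr (fB.can.lp w' h2)
      · exact Or.inl h2
    · rcases h2 with h2 | h2
      · rcases fB.el w' h2 with h3 | h3
        · exact Or.inl (Or.inl h3)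
        · exact Or.inr h3
      · exact Or.inl (Or.inr h2)
  -- right-of relation
  have hright : ∀ v ∈ X ++ Z, ∀ w ∈ M, v.1 = w.1 → v.2 < w.2 := by
    intro v hv w hwM hvw
    obtain ⟨w', rfl, -, hw2⟩ := hMel2 w hwM
    simp only [hK, Prod.fst_sub, Prod.snd_sub] at hvw ⊢
    rcases fA.el v hv with h1 | h1
    · rcases hw2 with h2 | h2
      · have := hctl v w' (Or.inl h1) h2 (by rw [abs_le]; omega)
        omega
      · have h3 := abs_le.mp h2.2.2
        have := hctl v (yb, ab) (Or.inl h1) hw (by simp only; rw [abs_le]; omega)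
        simp only at this
        omega
    · have h3 := abs_le.mp h1.2.2
      rcases hw2 with h2 | h2
      · have := hctl (y, a) w' hu h2 (by simp only; rw [abs_le]; omega)
        simp only at this
        omega
      · omega
  -- everything is below the top
  have htop : ∀ v : V, (v ∈ X ++ Z ∨ v ∈ M) → v ≠ K → lexlt v K := by
    intro v hv hvK
    unfold lexlt
    rcases hv with hv | hv
    · simp only [hK]
      rcases fA.el v hv with h1 | h1
      · have := Can.le_ht (m := A) (Or.inl h1)
        omega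
      · have h3 := abs_le.mp h1.2.2
        by_cases h4 : v.1 < K1
        · exact Or.inl h4
        · right
          have := hctl (y, a) (0, 0) hu (Or.inr rfl) (by simp only; rw [abs_le]; omega)
          simp only at this
          omega
    · obtain ⟨w', rfl, h2, -⟩ := hMel2 v hv
      rcases h2 with h2 | h2
      · exfalso
        apply hvK
        rw [h2]
        simp
      · unfold lexpos at h2
        simp only [hK, Prod.fst_sub, Prod.snd_sub]
        omega
  -- everything is above the root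
  have hMlp : ∀ w ∈ M, lexpos w := by
    intro w hw2
    obtain ⟨w', rfl, -, h2⟩ := hMel2 w hw2
    unfold lexpos
    simp only [hK, Prod.fst_sub, Prod.snd_sub]
    rcases h2 with h2 | h2
    · left
      have := Can.le_ht (m := B) h2
      omega
    · have h3 := abs_le.mp h2.2.2
      by_cases h4 : 0 < K1 - w'.1
      · exact Or.inl h4
      · right
        have := hctl (0, 0) (yb, ab) (Or.inr rfl) hw (by simp only; rw [abs_le]; omega)
        simp only at this
        omega
  have hMnd : M.Nodup := by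
    rw [hM]
    refine List.Nodup.map (fun x z h => sub_right_injective h) ?_
    have h1 := fB.can.nd0
    refine (List.Perm.nodup_iff ?_).mp h1
    refine List.Perm.trans ?_ (List.perm_append_comm)
    simp
  have hMch : M.IsChain adj := by
    rw [hM]
    apply chain_map_sub
    have h1 := fB.can.chain0
    have h2 : ((0, 0) :: P).IsChain adj := by
      rw [← List.cons_append] at h1
      exact (List.isChain_append.mp h1).1
    rw [List.isChain_append]
    refine ⟨(List.isChain_append.mp fB.can.ch).2.1, h2, ?_⟩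
    intro x hx z hz
    have h3 := fB.can.lt
    rw [List.getLast?_append_of_ne_nil _ fB.rn] at h3
    rw [h3] at hx
    simp only [Option.mem_def, Option.some.injEq, List.head?_cons] at hx hz
    rw [← hx, ← hz]
    unfold adj; simp
  have hMn : M ≠ [] := by rw [hM]; simp
  have hMhead : M.head? = (R.head?).map (fun v => K - v) := by
    rw [hM, List.head?_map, List.head?_append_of_ne_nil _ fB.rn]
  have hMlast : M.getLast? = (P.getLast?).map (fun v => K - v) := by
    rw [hM, List.getLast?_map, List.getLast?_append_of_ne_nil _ (by simp)]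
    rw [List.getLast?_cons]
    congr 1
    rcases List.eq_nil_or_concat P with h | ⟨L, b, h⟩
    · exact absurd h fB.pn
    · rw [h]; simp
  -- the ends of `M`
  obtain ⟨p, q, hXl, hZh, hpq1, hpq2, hMends⟩ : ∃ p q : V, X.getLast? = some p ∧
      Z.head? = some q ∧ (q.1 = p.1 + 1 ∨ q.1 = p.1 - 1) ∧ q.2 = p.2 ∧
      ((M.head? = some (p.1, p.2 + 1) ∧ M.getLast? = some (q.1, q.2 + 1)) ∨
       (M.head? = some (q.1, q.2 + 1) ∧ M.getLast? = some (p.1, p.2 + 1))) := by
    rw [hMhead, hMlast]
    rcases fA.ends with ⟨h1, h2⟩ | ⟨h1, h2⟩ <;> rcases fB.ends with ⟨h3, h4⟩ | ⟨h3, h4⟩ <;>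
    · refine ⟨_, _, h1, h2, by simp only; omega, rfl, ?_⟩
      rw [h3, h4]
      simp only [Option.map_some, Option.some.injEq, Prod.ext_iff, Prod.fst_sub, Prod.snd_sub, hK]
      rcases hrow with h5 | h5
      · omega
      · omega
  clear hrow hctl hctl2 hMel hMel2 hMhead hMlast hd hd' hgap hyb hya hu hw
  have key : ∀ Y : List V, (∀ v, v ∈ Y ↔ v ∈ M) → Y.Nodup → Y.IsChain adj →
      Y.head? = some (p.1, p.2 + 1) → Y.getLast? = some (q.1, q.2 + 1) → Y.length = M.length →
      (∃ Y1 Y2 : List V, Y = Y1 ++ K :: Y2 ∧ Y1 ≠ [] ∧ Y2 ≠ []) →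
      Can (X ++ Y ++ Z) ∧ Cut X Y Z ∧ (∀ v ∈ X ++ Y ++ Z, v ≠ K → lexlt v K) ∧
      (X ++ Y ++ Z).length = A.length + B.length + 1 + cf kA + cf kB := by
    intro Y hYM hYnd hYch hYh hYl hYlen hYK
    have hYn : Y ≠ [] := by
      intro h; rw [h] at hYh; simp at hYh
    have htop' : ∀ v ∈ X ++ Y ++ Z, v ≠ K → lexlt v K := by
      intro v hv hvK
      apply htop v _ hvK
      simp only [List.mem_append] at hv ⊢
      rw [hYM] at hv
      tauto
    have hright' : ∀ v ∈ X ++ Z, ∀ w ∈ Y, v.1 = w.1 → v.2 < w.2 :=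
      fun v hv w hw => hright v hv w ((hYM w).mp hw)
    have hXZ := List.nodup_append.mp fA.can.nd
    have hXZc := List.isChain_append.mp fA.can.ch
    refine ⟨⟨?_, ?_, ?_, ?_, ?_⟩, ⟨fA.pn, fA.rn, ⟨p, q, hXl, hYh, hZh, hYl, hpq1, hpq2⟩,
      hright', ?_⟩, htop', ?_⟩
    · -- nodup
      rw [List.nodup_append, List.nodup_append]
      refine ⟨⟨hXZ.1, hYnd, ?_⟩, hXZ.2.1, ?_⟩
      · intro v hv w hw hvw
        have := hright' v (List.mem_append_left _ hv) w hw (by rw [hvw])
        rw [hvw] at this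
        exact lt_irrefl _ this
      · intro v hv w hw hvw
        rcases List.mem_append.mp hv with hv | hv
        · exact hXZ.2.2 v hv w hw hvw
        · have := hright' w (List.mem_append_right _ hw) v hv (by rw [hvw])
          rw [hvw] at this
          exact lt_irrefl _ this
    · -- chain
      rw [List.isChain_append, List.isChain_append]
      refine ⟨⟨hXZc.1, hYch, ?_⟩, hXZc.2.1, ?_⟩
      · intro x hx z hz
        rw [hXl] at hx
        rw [hYh] at hz
        simp only [Option.mem_def, Option.some.injEq] at hx hz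
        rw [← hx, ← hz]
        unfold adj; simp
      · intro x hx z hz
        rw [List.getLast?_append_of_ne_nil _ hYn, hYl] at hx
        rw [hZh] at hz
        simp only [Option.mem_def, Option.some.injEq] at hx hz
        rw [← hx, ← hz]
        unfold adj; simp
    · have h1 := fA.can.hd
      rw [List.head?_append_of_ne_nil _ fA.pn] at h1
      rw [List.append_assoc, List.head?_append_of_ne_nil _ fA.pn]
      exact h1
    · have h1 := fA.can.lt
      rw [List.getLast?_append_of_ne_nil _ fA.rn] at h1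
      rw [List.getLast?_append_of_ne_nil _ fA.rn]
      exact h1
    · intro v hv
      have hv' : v ∈ X ++ Z ∨ v ∈ Y := by
        simp only [List.mem_append] at hv ⊢; tauto
      rcases hv' with hv' | hv'
      · exact fA.can.lp v hv'
      · exact hMlp v ((hYM v).mp hv')
    · obtain ⟨Y1, Y2, h1, h2, h3⟩ := hYK
      exact ⟨Y1, K, Y2, h1, h2, h3, htop'⟩
    · have h1 := fA.len
      have h2 := fB.len
      have h3 : M.length = P.length + R.length + 1 := by
        rw [hM, List.length_map, List.length_append, List.length_cons]; ring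
      simp only [List.length_append] at h1 h2 ⊢
      rw [hYlen, h3]
      exact aux_len h1 h2
  have hMK : M = R.map (fun v => K - v) ++ K :: P.map (fun v => K - v) := by
    rw [hM]; simp
  have hRm : R.map (fun v => K - v) ≠ [] := by simpa using fB.rn
  have hPm : P.map (fun v => K - v) ≠ [] := by simpa using fB.pn
  rcases hMends with ⟨h1, h2⟩ | ⟨h1, h2⟩
  · obtain ⟨c1, c2, c3, c4⟩ := key M (fun v => Iff.rfl) hMnd hMch h1 h2 rfl
      ⟨_, _, hMK, hRm, hPm⟩
    exact ⟨X, M, Z, kA, kB, bA, bB, false, σA, σB, hσA, hσB,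
      ⟨K, P, R, y, a, yb, ab, rfl, fA.fs, fB.fs, fB.can, c3, Or.inl ⟨rfl, rfl⟩⟩, c1, c2, c4⟩
  · obtain ⟨c1, c2, c3, c4⟩ := key M.reverse (fun v => List.mem_reverse)
      (List.nodup_reverse.mpr hMnd) (chain_symm hMch) (by rw [List.head?_reverse]; exact h2)
      (by rw [List.getLast?_reverse]; exact h1) (List.length_reverse)
      ⟨(P.map (fun v => K - v)).reverse, (R.map (fun v => K - v)).reverse, by
        rw [hMK]; simp, by simpa using hPm, by simpa using hRm⟩
    exact ⟨X, M.reverse, Z, kA, kB, bA, bB, true, σA, σB, hσA, hσB,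
      ⟨K, P, R, y, a, yb, ab, rfl, fA.fs, fB.fs, fB.can, c3, Or.inr ⟨rfl, rfl⟩⟩, c1, c2, c4⟩


end Pool.Agent.TH546.PC
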