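import Pool.Agent.TH546.PC.Join

/-!
Cuts far below the place of a join persist.
-/

set_option autoImplicit false

namespace Pool.Agent.TH546.PC

open Pool.Agent.W870.Pg

lemma n1_lev {k : Fin 5} {σ y a : ℤ} (hσ : σ = 1 ∨ σ = -1) :
    ∀ v ∈ n1 k σ y a, |v.1 - y| ≤ 1 := by
  have h : ∀ v ∈ n1 k σ y a, v.1 = y ∨ v.1 = y + σ ∨ v.1 = y - σ := by
    fin_cases k <;> simp [n1]
  intro v hv
  rw [abs_le]
  rcases h v hv with h | h | h <;> rw [h] <;> omega

lemma n2_lev {k : Fin 5} {σ y a : ℤ} (hσ : σ = 1 ∨ σ = -1) :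
    ∀ v ∈ n2 k σ y a, |v.1 - y| ≤ 1 := by
  have h : ∀ v ∈ n2 k σ y a, v.1 = y ∨ v.1 = y + σ ∨ v.1 = y - σ := by
    fin_cases k <;> simp [n2]
  intro v hv
  rw [abs_le]
  rcases h v hv with h | h | h <;> rw [h] <;> omega

lemma old_lev {k : Fin 5} {σ y a : ℤ} (hσ : σ = 1 ∨ σ = -1) :
    ∀ v ∈ old k σ y a, |v.1 - y| ≤ 1 := by
  have h : ∀ v ∈ old k σ y a, v.1 = y ∨ v.1 = y + σ ∨ v.1 = y - σ := by
    fin_cases k <;> simp [old]
  intro v hv
  rw [abs_le]
  rcases h v hv with h | h | h <;> rw [h] <;> omega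

/-- the modified polygon, without the details -/
lemma FS_split {m P R : List V} {k : Fin 5} {σ : ℤ} {b : Bool} {y a : ℤ} (hσ : σ = 1 ∨ σ = -1)
    (h : FS m P R k σ b y a) :
    ∃ P0 R0 md m1 m2 : List V, m = P0 ++ md ++ R0 ∧ P = P0 ++ m1 ∧ R = m2 ++ R0 ∧
      md ≠ [] ∧ m1 ≠ [] ∧ m2 ≠ [] ∧
      (∀ v ∈ md, |v.1 - y| ≤ 1) ∧ (∀ v ∈ m1, |v.1 - y| ≤ 1) ∧ (∀ v ∈ m2, |v.1 - y| ≤ 1) := by
  obtain ⟨L1, L2, h | h⟩ := h
  · obtain ⟨-, h1, h2, h3⟩ := h
    exact ⟨L1, L2, old k σ y a, n1 k σ y a, n2 k σ y a, h1, h2, h3, old_ne _ _ _ _, n1_ne _ _ _ _,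
      n2_ne _ _ _ _, old_lev hσ, n1_lev hσ, n2_lev hσ⟩
  · obtain ⟨-, h1, h2, h3⟩ := h
    refine ⟨L2.reverse, L1.reverse, (old k σ y a).reverse, (n2 k σ y a).reverse,
      (n1 k σ y a).reverse, ?_, ?_, ?_, ?_, ?_, ?_, ?_, ?_, ?_⟩
    · rw [← List.reverse_reverse m, h1]; simp
    · rw [h2]; simp
    · rw [h3]; simp
    · simpa using old_ne k σ y a
    · simpa using n2_ne k σ y a
    · simpa using n1_ne k σ y a
    · intro v hv; exact old_lev hσ v (List.mem_reverse.mp hv)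
    · intro v hv; exact n2_lev hσ v (List.mem_reverse.mp hv)
    · intro v hv; exact n1_lev hσ v (List.mem_reverse.mp hv)

/-- levels of the modified polygon -/
lemma FS_lev {m P R : List V} {k : Fin 5} {σ : ℤ} {b : Bool} {y a : ℤ} (hσ : σ = 1 ∨ σ = -1)
    (h : FS m P R k σ b y a) : y ≤ ht m + 1 ∧ ∀ v ∈ P ++ R, v.1 ≤ ht m + 2 := by
  obtain ⟨P0, R0, md, m1, m2, h1, h2, h3, h4, h5, h6, h7, h8, h9⟩ := FS_split hσ h
  obtain ⟨w, hw⟩ := List.exists_mem_of_ne_nil md h4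
  have hwm : w ∈ m := by rw [h1]; simp [hw]
  have a1 := le_ht hwm
  have a2 := abs_le.mp (h7 w hw)
  have hy : y ≤ ht m + 1 := by omega
  refine ⟨hy, fun v hv => ?_⟩
  rw [h2, h3] at hv
  simp only [List.mem_append] at hv
  rcases hv with (hv | hv) | (hv | hv)
  · have := le_ht (m := m) (v := v) (by rw [h1]; simp [hv])
    omega
  · have := abs_le.mp (h8 v hv)
    omega
  · have := abs_le.mp (h9 v hv)
    omega
  · have := le_ht (m := m) (v := v) (by rw [h1]; simp [hv])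
    omega

/-- facts about the levels of a join -/
lemma JR_lev {A B : List V} {s : ℤ} {X Y Z : List V} {kA kB : Fin 5} {bA bB bM : Bool}
    {σA σB : ℤ} (hσA : σA = 1 ∨ σA = -1) (hσB : σB = 1 ∨ σB = -1)
    (h : JR A B s X Y Z kA kB bA bB bM σA σB) (c : Cut X Y Z) :
    (∀ w ∈ Y, s - 2 ≤ w.1) ∧ (∀ v ∈ X ++ Z, v.1 ≤ ht A + 2) ∧
    ∃ P0 R0 md m1 m2 : List V, A = P0 ++ md ++ R0 ∧ X = P0 ++ m1 ∧ Z = m2 ++ R0 ∧
      md ≠ [] ∧ m1 ≠ [] ∧ m2 ≠ [] ∧
      (∀ v ∈ md, s - 4 ≤ v.1) ∧ (∀ v ∈ m1, s - 4 ≤ v.1) ∧ (∀ v ∈ m2, s - 4 ≤ v.1) := by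
  obtain ⟨K, P, R, y, a, yb, ab, hK, hA, hB, hC, htop, hM⟩ := h
  obtain ⟨b1, b2⟩ := FS_lev hσB hB
  have hY : ∀ w ∈ Y, s - 2 ≤ w.1 := by
    intro w hw
    have hw' : w ∈ (R ++ (0, 0) :: P).map (fun v => K - v) := by
      rcases hM with ⟨-, hM⟩ | ⟨-, hM⟩
      · rwa [hM] at hw
      · rw [hM] at hw; exact List.mem_reverse.mp hw
    rw [List.mem_map] at hw'
    obtain ⟨v, hv, rfl⟩ := hw'
    simp only [Prod.fst_sub]
    have hv' : v = (0, 0) ∨ v ∈ P ++ R := by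
      simp only [List.mem_append, List.mem_cons] at hv ⊢
      tauto
    rcases hv' with rfl | hv'
    · simp only
      omega
    · have := b2 v hv'
      omega
  obtain ⟨P0, R0, md, m1, m2, h1, h2, h3, h4, h5, h6, h7, h8, h9⟩ := FS_split hσA hA
  obtain ⟨p, q, hp, hyh, hq, hyl, hpq1, hpq2⟩ := c.corr
  have e1 := hY _ (List.mem_of_head? hyh)
  simp only at e1
  have e2 : p ∈ m1 := by
    rw [h2, List.getLast?_append_of_ne_nil _ h5] at hp
    exact List.mem_of_getLast? hp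
  have e3 := abs_le.mp (h8 p e2)
  refine ⟨hY, (FS_lev hσA hA).2, P0, R0, md, m1, m2, h1, h2, h3, h4, h5, h6, ?_, ?_, ?_⟩
  · intro v hv
    have := abs_le.mp (h7 v hv)
    omega
  · intro v hv
    have := abs_le.mp (h8 v hv)
    omega
  · intro v hv
    have := abs_le.mp (h9 v hv)
    omega

/-- a prefix which avoids the replaced part is a prefix of the first half -/
lemma prefix_avoid {X0 T P0 md R0 : List V} (h : X0 ++ T = P0 ++ (md ++ R0)) (hmd : md ≠ [])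
    (hav : ∀ v ∈ md, v ∉ X0) : ∃ U, P0 = X0 ++ U ∧ T = U ++ (md ++ R0) := by
  rcases List.append_eq_append_iff.mp h with ⟨U, h1, h2⟩ | ⟨U, h1, h2⟩
  · exact ⟨U, h1, h2⟩
  · cases U with
    | nil => exact ⟨[], by simpa using h1.symm, by simpa using h2.symm⟩
    | cons u U' =>
      exfalso
      cases md with
      | nil => exact hmd rfl
      | cons w md' =>
        simp only [List.cons_append, List.cons.injEq] at h2
        apply hav w (by simp)
        rw [h1, h2.1]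
        simp

/-- **Cuts far below the join persist** -/
lemma keep {A B : List V} {s : ℤ} {X Y Z : List V} {kA kB : Fin 5} {bA bB bM : Bool}
    {σA σB : ℤ} (hσA : σA = 1 ∨ σA = -1) (hσB : σB = 1 ∨ σB = -1)
    (h : JR A B s X Y Z kA kB bA bB bM σA σB) (c : Cut X Y Z) {X0 Y0 Z0 : List V}
    (hA : A = X0 ++ Y0 ++ Z0) (c0 : Cut X0 Y0 Z0) (hlev : ∀ v ∈ X0 ++ Z0, v.1 < s - 4) :
    ∃ Y0', X ++ Y ++ Z = X0 ++ Y0' ++ Z0 ∧ Cut X0 Y0' Z0 ∧ X0.length < X.length := by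
  obtain ⟨hY, -, P0, R0, md, m1, m2, h1, h2, h3, h4, h5, h6, h7, h8, h9⟩ := JR_lev hσA hσB h c
  have hX0 : ∀ v ∈ X0, v.1 < s - 4 := fun v hv => hlev v (List.mem_append_left _ hv)
  have hZ0 : ∀ v ∈ Z0, v.1 < s - 4 := fun v hv => hlev v (List.mem_append_right _ hv)
  obtain ⟨p, q, hp, hyh, hq, hyl, hpq1, hpq2⟩ := c0.corr
  have hpX := hX0 p (List.mem_of_getLast? hp)
  have hqZ := hZ0 q (List.mem_of_head? hq)
  -- prefix
  have e1 : X0 ++ (Y0 ++ Z0) = P0 ++ (md ++ R0) := by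
    rw [← List.append_assoc, ← List.append_assoc, ← hA, ← h1]
  obtain ⟨U, hU1, hU2⟩ := prefix_avoid e1 h4 (fun v hv hv2 => by
    have a1 := h7 v hv
    have a2 := hX0 v hv2
    omega)
  -- suffix
  have e2 : Z0.reverse ++ Y0.reverse = (R0.reverse) ++ (md.reverse ++ U.reverse) := by
    have := congrArg List.reverse hU2
    simpa using this
  obtain ⟨W, hW1, hW2⟩ := prefix_avoid e2 (by simpa using h4) (fun v hv hv2 => by
    have a1 := h7 v (List.mem_reverse.mp hv)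
    have a2 := hZ0 v (List.mem_reverse.mp hv2)
    omega)
  have hR0 : R0 = W.reverse ++ Z0 := by
    have := congrArg List.reverse hW1
    simpa using this
  have hY0 : Y0 = U ++ md ++ W.reverse := by
    have := congrArg List.reverse hW2
    simpa using this
  have hUn : U ≠ [] := by
    rintro rfl
    rw [hY0, List.nil_append, List.head?_append_of_ne_nil _ h4] at hyh
    have := h7 _ (List.mem_of_head? hyh)
    simp only at this
    omega
  have hWn : W.reverse ≠ [] := by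
    intro h0
    rw [hY0, h0, List.append_nil, List.getLast?_append_of_ne_nil _ h4] at hyl
    have := h7 _ (List.mem_of_getLast? hyl)
    simp only at this
    omega
  obtain ⟨Y1, K, Y2, hK1, hK2, hK3, hK4⟩ := c.top
  have eall : X ++ Y ++ Z = X0 ++ (U ++ m1 ++ Y ++ m2 ++ W.reverse) ++ Z0 := by
    rw [h2, h3, hU1, hR0]; simp
  refine ⟨U ++ m1 ++ Y ++ m2 ++ W.reverse, eall, ⟨c0.xn, c0.zn, ⟨p, q, hp, ?_, hq, ?_, hpq1, hpq2⟩,
    ?_, ?_⟩, ?_⟩
  · rw [hY0, List.append_assoc, List.head?_append_of_ne_nil _ hUn] at hyh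
    rw [List.append_assoc, List.append_assoc, List.append_assoc, List.head?_append_of_ne_nil _ hUn]
    exact hyh
  · rw [hY0, List.getLast?_append_of_ne_nil _ hWn] at hyl
    rw [List.getLast?_append_of_ne_nil _ hWn]
    exact hyl
  · intro v hv w hw hvw
    have hv2 := hlev v hv
    simp only [List.mem_append] at hw
    rcases hw with (((hw | hw) | hw) | hw) | hw
    · exact c0.right v hv w (by rw [hY0]; simp [hw]) hvw
    · have := h8 w hw; omega
    · have := hY w hw; omega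
    · have := h9 w hw; omega
    · exact c0.right v hv w (by rw [hY0]; simp at hw ⊢; simp [hw]) hvw
  · refine ⟨U ++ m1 ++ Y1, K, Y2 ++ m2 ++ W.reverse, ?_, ?_, ?_, ?_⟩
    · rw [hK1]; simp
    · simp [hK2]
    · simp [hK3]
    · rw [← eall]; exact hK4
  · rw [h2, hU1]
    have : 0 < m1.length := List.length_pos_iff.mpr h5
    simp only [List.length_append]
    omega

/-- the height of a join -/
lemma ht_join {A B : List V} {s : ℤ} {X Y Z : List V} {kA kB : Fin 5} {bA bB bM : Bool}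
    {σA σB : ℤ} (h : JR A B s X Y Z kA kB bA bB bM σA σB) (hC : Can (X ++ Y ++ Z)) :
    (ht (X ++ Y ++ Z) : ℤ) = s + ht B := by
  obtain ⟨K, P, R, y, a, yb, ab, hK, hA, hB, hC', htop, hM⟩ := h
  have hKY : K ∈ Y := by
    have hz : K ∈ (R ++ (0, 0) :: P).map (fun v => K - v) :=
      List.mem_map.mpr ⟨(0, 0), by simp, by ext <;> simp⟩
    rcases hM with ⟨-, h⟩ | ⟨-, h⟩ <;> rw [h]
    · exact hz
    · exact List.mem_reverse.mpr hz
  have h1 := le_ht (m := X ++ Y ++ Z) (v := K) (by simp [hKY])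
  obtain ⟨v, hv, hv2⟩ := hC.exists_ht
  by_cases hvK : v = K
  · rw [← hv2, hvK, hK]
  · have := htop v hv hvK
    unfold lexlt at this
    omega

/-- a cut is determined by the number of sites before it -/
lemma cut_unique {g X Y Z X' Y' Z' : List V} (hg : Can g) (h : g = X ++ Y ++ Z)
    (h' : g = X' ++ Y' ++ Z') (c : Cut X Y Z) (c' : Cut X' Y' Z') (hl : X.length = X'.length) :
    X = X' ∧ Y = Y' ∧ Z = Z' := by
  have hZ : Z.length = Z'.length := IsC_uniq hg ⟨X, Y, Z, h, rfl, rfl, c⟩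
    ⟨X', Y', Z', h', hl.symm, rfl, c'⟩
  have e := h.symm.trans h'
  have e1 := List.append_inj' e hZ
  have e2 := List.append_inj e1.1 hl
  exact ⟨e2.1, e2.2, e1.2⟩

end Pool.Agent.TH546.PC
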