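import Pool.Agent.TH546.PC.Tail

/-!
The pointwise bound `p_{2n} ≤ K μ^(2n) / n`.
-/

set_option autoImplicit false

namespace Pool.Agent.TH546.PC

open Pool.Agent.W870.Pg H981 Filter Topology

/-- products of almost log-convex sequences -/
lemma almost_convex {g : ℕ → ℝ} {D : ℝ} (hD : 1 ≤ D) {N : ℕ} {k : ℕ}
    (hpos : ∀ m, 2 * m + 2 ≥ N → 0 < g m)
    (hconv : ∀ m, 2 * m + 2 ≥ N → g (m + 1) ^ 2 ≤ g m * g (m + 2) + D / N * g m ^ 2)
    (hr : ∀ m, 2 * m + 2 ≥ N → g m ≤ 2 * g (m + 1))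
    (hN : 2 ≤ N) (hk : 8 * D * (k : ℝ) ^ 2 ≤ N) (hkN : 2 * k ≤ N) :
    (1 - 8 * D * (k : ℝ) ^ 2 / N) * g N ^ 2 ≤ g (N + k) * g (N - k) := by
  have hN0 : (0 : ℝ) < N := by
    have : 0 < N := by omega
    exact_mod_cast this
  -- ratios decrease slowly
  have hstep : ∀ m, 2 * m + 2 ≥ N → g (m + 1) / g m - 2 * D / N ≤ g (m + 2) / g (m + 1) := by
    intro m hm
    have h0 := hpos m hm
    have h1 := hpos (m + 1) (by omega)
    have h2 := hconv m hm
    have h3 := hr m hm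
    have h4 : g (m + 1) / g m - 2 * D / N ≤ g (m + 2) / g (m + 1) ↔
        g (m + 1) ^ 2 ≤ g m * g (m + 2) + 2 * D / N * (g m * g (m + 1)) := by
      rw [sub_le_iff_le_add, div_le_iff₀ h0, add_mul, div_mul_eq_mul_div (g (m + 2)),
        ← mul_le_mul_iff_left₀ h1]
      have e : (g (m + 2) * g m / g (m + 1) + 2 * D / N * g m) * g (m + 1) =
          g m * g (m + 2) + 2 * D / N * (g m * g (m + 1)) := by
        field_simp
      rw [e, ← sq]
    rw [h4]
    refine h2.trans ?_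
    have h5 : D / N * g m ^ 2 ≤ 2 * D / N * (g m * g (m + 1)) := by
      have : g m ^ 2 ≤ 2 * (g m * g (m + 1)) := by nlinarith
      calc D / N * g m ^ 2 ≤ D / N * (2 * (g m * g (m + 1))) := by gcongr
        _ = _ := by ring
    linarith
  have hmany : ∀ i m, 2 * m + 2 ≥ N →
      g (m + 1) / g m - i * (2 * D / N) ≤ g (m + i + 1) / g (m + i) := by
    intro i
    induction i with
    | zero => intro m hm; simp
    | succ i ih =>
      intro m hm
      have h1 := ih m hm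
      have h2 := hstep (m + i) (by omega)
      have e1 : m + (i + 1) + 1 = m + i + 2 := by ring
      have e2 : m + (i + 1) = m + i + 1 := by ring
      rw [e1, e2]
      push_cast
      linarith
  -- induction
  have key : ∀ j, j ≤ k → (1 - 8 * D * (j : ℝ) ^ 2 / N) * g N ^ 2 ≤ g (N + j) * g (N - j) := by
    intro j
    induction j with
    | zero => intro _; simp [sq]
    | succ j ih =>
      intro hj
      have h1 := ih (by omega)
      obtain ⟨m, hm⟩ : ∃ m, N - (j + 1) = m := ⟨_, rfl⟩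
      have hmN : 2 * m + 2 ≥ N := by omega
      have e1 : N - j = m + 1 := by omega
      have e2 : N + j = m + (2 * j + 1) := by omega
      have e3 : N + (j + 1) = m + (2 * j + 1) + 1 := by omega
      have h2 := hmany (2 * j + 1) m hmN
      rw [hm, e3]
      rw [e1, e2] at h1
      have p0 := hpos m hmN
      have p1 := hpos (m + 1) (by omega)
      have p2 := hpos (m + (2 * j + 1)) (by omega)
      have h3 := hr m hmN
      -- the quotient
      set x := g (m + 1) / g m with hx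
      have hx1 : 1 / 2 ≤ x := by
        rw [hx, div_le_div_iff₀ (by norm_num) p0]
        linarith
      set a : ℝ := 8 * D / N * (2 * j + 1) with ha
      have ha0 : 0 ≤ a := by positivity
      have hjk : (j : ℝ) + 1 ≤ k := by exact_mod_cast hj
      have hj0 : (0 : ℝ) ≤ j := Nat.cast_nonneg _
      have ha1 : a ≤ 1 := by
        rw [ha, div_mul_eq_mul_div, div_le_one hN0]
        refine le_trans ?_ hk
        have : (2 * (j : ℝ) + 1) ≤ (k : ℝ) ^ 2 := by nlinarith
        gcongr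
      have h4 : (1 - a) * x ≤ g (m + (2 * j + 1) + 1) / g (m + (2 * j + 1)) := by
        refine le_trans ?_ h2
        have e4 : ((2 * j + 1 : ℕ) : ℝ) * (2 * D / N) = a / 4 := by
          rw [ha]; push_cast; ring
        rw [e4]
        nlinarith
      have h5 : (1 - a) * x * g (m + (2 * j + 1)) ≤ g (m + (2 * j + 1) + 1) := by
        rwa [le_div_iff₀ p2] at h4
      have h6 : (1 - a) * (g (m + 1) * g (m + (2 * j + 1))) ≤ g (m + (2 * j + 1) + 1) * g m := by
        have h7 := mul_le_mul_of_nonneg_right h5 p0.le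
        have e5 : (1 - a) * x * g (m + (2 * j + 1)) * g m =
            (1 - a) * (g (m + 1) * g (m + (2 * j + 1))) := by
          rw [hx]; field_simp
        rwa [e5] at h7
      refine le_trans ?_ h6
      set b : ℝ := 8 * D * (j : ℝ) ^ 2 / N with hb
      have hb0 : 0 ≤ b := by positivity
      have h8 : (1 - a) * ((1 - b) * g N ^ 2) ≤ (1 - a) * (g (m + 1) * g (m + (2 * j + 1))) := by
        apply mul_le_mul_of_nonneg_left _ (by linarith)
        calc (1 - b) * g N ^ 2 ≤ _ := h1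
          _ = _ := by ring
      refine le_trans ?_ h8
      have e6 : 8 * D * ((j + 1 : ℕ) : ℝ) ^ 2 / N = a + b := by
        rw [ha, hb]; push_cast; ring
      rw [e6, ← mul_assoc]
      apply mul_le_mul_of_nonneg_right _ (sq_nonneg _)
      nlinarith [mul_nonneg ha0 hb0]
  exact key k le_rfl

/-- number of rooted loops, normalised -/
noncomputable def GG (N : ℕ) : ℝ := N * Fp N

lemma GG_pos {N : ℕ} (hN : 2 ≤ N) : 0 < GG N := by
  have h1 := Fp_pos hN
  have h2 : (0 : ℝ) < N := by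
    have : 0 < N := by omega
    exact_mod_cast this
  unfold GG
  positivity

/-- almost log-convexity of the numbers of loops -/
lemma GG_conv : ∃ D : ℝ, 1 ≤ D ∧ ∀ m : ℕ, 2 ≤ m →
    GG (m + 1) ^ 2 ≤ GG m * GG (m + 2) + D / m * GG m ^ 2 := by
  obtain ⟨D, hD, h⟩ := Pool.Agent.H739K.RATIO_proof Pool.Agent.H739K.bnd 0 le_rfl
  refine ⟨max D 1, le_max_right _ _, fun m hm => ?_⟩
  have hmu := mu_pos
  have hmu1 : 1 ≤ mu := one_le_mu
  have hcard : ∀ N : ℕ, 2 ≤ N → Pool.Agent.H739K.mm (fun _ => 1) (2 * N - 1) =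
      4 * mu ^ (2 * N) * GG N := by
    intro N hN
    have h1 := (Pool.Agent.H739K.CONV_proof N hN).2.1
    rw [Pool.Agent.H739K.F0_mm_one, ← h1]
    have h2 : (({f : ZMod (2 * N) → ℤ × ℤ | Pool.Agent.H924P.IsLoop (2 * N) f}.ncard : ℕ) : ℝ) =
        4 * (N : ℝ) * PP N := by
      obtain ⟨M, rfl⟩ : ∃ M, N = M + 1 := ⟨N - 1, by omega⟩
      rw [← Pool.Agent.H924P.card_loops M, ← Nat.card_coe_set_eq]
      rfl
    rw [h2]
    unfold GG Fp
    have h3 : mu ^ (2 * N) ≠ 0 := (pow_pos hmu _).ne'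
    field_simp
  have h1 := h (2 * m - 1) (fun _ => 1) (by omega) (by omega) (Pool.Agent.H739K.F0_nice_one _)
  have e1 : 2 * m - 1 + 2 = 2 * (m + 1) - 1 := by omega
  have e2 : 2 * m - 1 + 4 = 2 * (m + 2) - 1 := by omega
  rw [e1, e2, hcard m hm, hcard (m + 1) (by omega), hcard (m + 2) (by omega)] at h1
  have hm0 : (0 : ℝ) < m := by
    have : 0 < m := by omega
    exact_mod_cast this
  have h2 : D / ((2 * m - 1 : ℕ) : ℝ) ≤ max D 1 / m := by
    have h3 : (m : ℝ) ≤ ((2 * m - 1 : ℕ) : ℝ) := by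
      have : m ≤ 2 * m - 1 := by omega
      exact_mod_cast this
    exact div_le_div₀ (by positivity) (le_max_left _ _) hm0 h3
  have hG := GG_pos hm
  set P := mu ^ (2 * m) with hP
  have hP0 : 0 < P := pow_pos hmu _
  have e3 : mu ^ (2 * (m + 1)) = P * mu ^ 2 := by rw [hP, ← pow_add]; congr 1
  have e4 : mu ^ (2 * (m + 2)) = P * mu ^ 4 := by rw [hP, ← pow_add]; congr 1
  rw [e3, e4] at h1
  have hmu4 : 1 ≤ mu ^ 4 := one_le_pow₀ hmu1
  have hc : 0 ≤ max D 1 / (m : ℝ) := by positivity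
  have h4 : 16 * P ^ 2 * mu ^ 4 * GG (m + 1) ^ 2 ≤
      16 * P ^ 2 * mu ^ 4 * (GG m * GG (m + 2) + max D 1 / m * GG m ^ 2) := by
    calc 16 * P ^ 2 * mu ^ 4 * GG (m + 1) ^ 2 = (4 * (P * mu ^ 2) * GG (m + 1)) ^ 2 := by ring
      _ ≤ 4 * P * GG m * (4 * (P * mu ^ 4) * GG (m + 2)) +
          D / ((2 * m - 1 : ℕ) : ℝ) * (4 * P * GG m) ^ 2 := h1
      _ ≤ 4 * P * GG m * (4 * (P * mu ^ 4) * GG (m + 2)) +
          max D 1 / m * (4 * P * GG m) ^ 2 := by gcongr
      _ = 16 * P ^ 2 * mu ^ 4 * (GG m * GG (m + 2)) + 16 * P ^ 2 * 1 * (max D 1 / m * GG m ^ 2) := by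
          ring
      _ ≤ 16 * P ^ 2 * mu ^ 4 * (GG m * GG (m + 2)) +
          16 * P ^ 2 * mu ^ 4 * (max D 1 / m * GG m ^ 2) := by gcongr
      _ = _ := by ring
  exact le_of_mul_le_mul_left h4 (by positivity)

/-- the ratios are eventually at least `1/2` -/
lemma GG_ratio : ∃ N0 : ℕ, 2 ≤ N0 ∧ ∀ m : ℕ, N0 ≤ m → GG m ≤ 2 * GG (m + 1) := by
  obtain ⟨C, hC, h⟩ := Fp_ratio
  have hlim := Pool.Agent.H739K.pow_mul_rN (β := 0) (by norm_num)
  have hev : ∀ᶠ m : ℕ in atTop, (m : ℝ) ^ (0 : ℝ) * Pool.Agent.H739K.rN m < 1 / (2 * (C + 1)) :=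
    hlim.eventually (gt_mem_nhds (by positivity))
  obtain ⟨n0, hn0⟩ := eventually_atTop.mp hev
  refine ⟨max 2 n0, le_max_left _ _, fun m hm => ?_⟩
  have hm2 : 2 ≤ m := (le_max_left _ _).trans hm
  have hmn : n0 ≤ m := (le_max_right _ _).trans hm
  have h1 := hn0 m hmn
  rw [Real.rpow_zero, one_mul, Pool.Agent.H739K.rN_eq] at h1
  have h2 := h m hm2
  have h3 : C * Real.sqrt (Real.log m ^ 9 / m) ≤ 1 / 2 := by
    calc C * Real.sqrt (Real.log m ^ 9 / m) ≤ C * (1 / (2 * (C + 1))) := by gcongr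
      _ ≤ 1 / 2 := by
        rw [mul_one_div, div_le_div_iff₀ (by positivity) (by norm_num)]
        linarith
  have h4 := (abs_le.mp (h2.trans h3)).1
  have hF := Fp_pos hm2
  have hF1 := Fp_pos (N := m + 1) (by omega)
  have h5 : Fp m ≤ 2 * Fp (m + 1) := by
    have : 1 / 2 ≤ Fp (m + 1) / Fp m := by linarith
    rw [div_le_div_iff₀ (by norm_num) hF] at this
    linarith
  unfold GG
  push_cast
  have hm0 : (0 : ℝ) ≤ m := Nat.cast_nonneg _
  nlinarith

/-- **The pointwise bound** -/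
theorem point : ∃ K : ℝ, 0 ≤ K ∧ ∀ n : ℕ, 2 ≤ n → Fp n ≤ K / n := by
  obtain ⟨Kt, hKt, htail⟩ := tail
  obtain ⟨D0, hD0, hconv⟩ := GG_conv
  obtain ⟨N0, hN0, hratio⟩ := GG_ratio
  -- constants
  obtain ⟨D, hD⟩ : ∃ D : ℝ, D = 4 * D0 := ⟨_, rfl⟩
  have hD1 : 1 ≤ D := by rw [hD]; linarith
  obtain ⟨M0, hM0⟩ : ∃ M0 : ℕ, M0 = max (2 * N0 + 4) ⌈64 * D⌉₊ := ⟨_, rfl⟩
  have hsmall : ∃ S : ℝ, 0 ≤ S ∧ ∀ n : ℕ, 2 ≤ n → n < M0 → Fp n ≤ S := by
    refine ⟨∑ j ∈ Finset.Icc 2 M0, Fp j, Finset.sum_nonneg (fun j hj =>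
      (Fp_pos (Finset.mem_Icc.mp hj).1).le), fun n h2 hn => ?_⟩
    exact Finset.single_le_sum (f := Fp) (fun j hj => (Fp_pos (Finset.mem_Icc.mp hj).1).le)
      (Finset.mem_Icc.mpr ⟨h2, hn.le⟩)
  obtain ⟨S, hS0, hS⟩ := hsmall
  refine ⟨S * M0 + 64 * Kt * D, by positivity, fun n hn => ?_⟩
  have hn0 : (0 : ℝ) < n := by
    have : 0 < n := by omega
    exact_mod_cast this
  by_cases hc : n < M0
  · have h1 := hS n hn hc
    rw [le_div_iff₀ hn0]
    have h2 : (n : ℝ) ≤ M0 := by exact_mod_cast hc.le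
    have h3 : 0 ≤ 64 * Kt * D := by positivity
    have h4 : Fp n * n ≤ S * M0 := mul_le_mul h1 h2 hn0.le hS0
    linarith
  push Not at hc
  have hnN0 : 2 * N0 + 4 ≤ n := (le_max_left _ _).trans (hM0 ▸ hc)
  have hn64 : 64 * D ≤ n := by
    have h1 : ⌈64 * D⌉₊ ≤ n := (le_max_right _ _).trans (hM0 ▸ hc)
    exact (Nat.le_ceil _).trans (by exact_mod_cast h1)
  -- the window
  obtain ⟨κ, hκ⟩ : ∃ κ : ℕ, κ = ⌊Real.sqrt (n / (16 * D))⌋₊ := ⟨_, rfl⟩
  have hκ1 : (κ : ℝ) ≤ Real.sqrt (n / (16 * D)) := by rw [hκ]; exact Nat.floor_le (by positivity)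
  have hκ2 : Real.sqrt (n / (16 * D)) < κ + 1 := by rw [hκ]; exact Nat.lt_floor_add_one _
  have hsq2 : (2 : ℝ) ≤ Real.sqrt (n / (16 * D)) := by
    apply Real.le_sqrt_of_sq_le
    rw [le_div_iff₀ (by positivity)]
    linarith
  have hκ3 : Real.sqrt (n / (16 * D)) / 2 ≤ κ := by linarith
  have hκsq : (κ : ℝ) ^ 2 ≤ n / (16 * D) := by
    calc (κ : ℝ) ^ 2 ≤ Real.sqrt (n / (16 * D)) ^ 2 := by gcongr
      _ = n / (16 * D) := Real.sq_sqrt (by positivity)
  have hκn : 16 * D * (κ : ℝ) ^ 2 ≤ n := by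
    rw [le_div_iff₀ (by positivity)] at hκsq
    linarith
  have hκ2n : 2 * κ ≤ n := by
    have h1 : (κ : ℝ) ≤ κ ^ 2 := by
      have h2 : κ ≤ κ ^ 2 := Nat.le_self_pow (by norm_num) κ
      exact_mod_cast h2
    have h3 : (2 : ℝ) * κ ≤ n := by nlinarith
    exact_mod_cast h3
  -- the sequence
  have hpair : ∀ k, k ∈ Finset.Icc 1 κ → Fp n / 2 ≤ Fp (n + k) + Fp (n - k) := by
    intro k hk
    rw [Finset.mem_Icc] at hk
    have hkκ : (k : ℝ) ≤ κ := by exact_mod_cast hk.2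
    have hkn : 16 * D * (k : ℝ) ^ 2 ≤ n := by
      refine le_trans ?_ hκn
      gcongr
    have h1 := almost_convex (g := GG) (D := D) hD1 (N := n) (k := k)
      (fun m hm => GG_pos (by omega)) (fun m hm => by
        refine (hconv m (by omega)).trans ?_
        have h2 : D0 / (m : ℝ) ≤ D / n := by
          rw [hD]
          have hm0 : (0 : ℝ) < m := by
            have : 0 < m := by omega
            exact_mod_cast this
          rw [div_le_div_iff₀ hm0 hn0]
          have h3 : n ≤ 4 * m := by omega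
          have h4 : (n : ℝ) ≤ 4 * m := by exact_mod_cast h3
          nlinarith
        gcongr) (fun m hm => hratio m (by omega)) (by omega)
      (by
        have : 0 ≤ D * (k : ℝ) ^ 2 := by positivity
        linarith) (by omega)
    have h2 : (1 : ℝ) / 2 ≤ 1 - 8 * D * (k : ℝ) ^ 2 / n := by
      have : 8 * D * (k : ℝ) ^ 2 / n ≤ 1 / 2 := by
        rw [div_le_div_iff₀ hn0 (by norm_num)]
        linarith
      linarith
    have hG := GG_pos hn
    have hGa := GG_pos (N := n + k) (by omega)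
    have hGb := GG_pos (N := n - k) (by omega)
    have h3 : GG n ^ 2 / 2 ≤ GG (n + k) * GG (n - k) := by
      refine le_trans ?_ h1
      have : GG n ^ 2 / 2 = 1 / 2 * GG n ^ 2 := by ring
      rw [this]
      gcongr
    have h4 : GG n ≤ GG (n + k) + GG (n - k) := by
      nlinarith [sq_nonneg (GG (n + k) - GG (n - k))]
    -- back to `Fp`
    have hFa := Fp_pos (N := n + k) (by omega)
    have hFb := Fp_pos (N := n - k) (by omega)
    have h5 : GG (n + k) ≤ 2 * n * Fp (n + k) := by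
      unfold GG
      have : ((n + k : ℕ) : ℝ) ≤ 2 * n := by
        have : n + k ≤ 2 * n := by omega
        exact_mod_cast this
      gcongr
    have h6 : GG (n - k) ≤ 2 * n * Fp (n - k) := by
      unfold GG
      have : ((n - k : ℕ) : ℝ) ≤ 2 * n := by
        have : n - k ≤ 2 * n := by omega
        exact_mod_cast this
      gcongr
    have h7 : n * Fp n ≤ n * (2 * (Fp (n + k) + Fp (n - k))) := by
      calc n * Fp n = GG n := rfl
        _ ≤ _ := h4
        _ ≤ _ := by linarith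
    have h8 := le_of_mul_le_mul_left h7 hn0
    linarith
  have hsum : κ * (Fp n / 2) ≤ ∑ k ∈ Finset.Icc 1 κ, (Fp (n + k) + Fp (n - k)) := by
    calc κ * (Fp n / 2) = ∑ k ∈ Finset.Icc 1 κ, Fp n / 2 := by
          rw [Finset.sum_const, Nat.card_Icc, nsmul_eq_mul, Nat.add_sub_cancel]
      _ ≤ _ := Finset.sum_le_sum hpair
  rw [Finset.sum_add_distrib] at hsum
  obtain ⟨l, hl⟩ : ∃ l, l = n - κ := ⟨_, rfl⟩
  have hl2 : n ≤ 2 * l := by omega
  have hl3 : 2 ≤ l := by omega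
  have ht := htail l (n + κ) hl3
  have hposs : ∀ j ∈ Finset.Icc l (n + κ), 0 ≤ Fp j := fun j hj =>
    (Fp_pos (by rw [Finset.mem_Icc] at hj; omega)).le
  have ha : ∑ k ∈ Finset.Icc 1 κ, Fp (n + k) ≤ ∑ j ∈ Finset.Icc l (n + κ), Fp j := by
    have e : ∑ k ∈ Finset.Icc 1 κ, Fp (n + k) =
        ∑ j ∈ (Finset.Icc 1 κ).image (fun k => n + k), Fp j := by
      rw [Finset.sum_image]
      intro a _ b _ hab
      simpa using hab
    rw [e]
    apply Finset.sum_le_sum_of_subset_of_nonneg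
    · intro j hj
      rw [Finset.mem_image] at hj
      obtain ⟨k, hk, rfl⟩ := hj
      rw [Finset.mem_Icc] at hk ⊢
      omega
    · intro j hj _
      exact hposs j hj
  have hb : ∑ k ∈ Finset.Icc 1 κ, Fp (n - k) ≤ ∑ j ∈ Finset.Icc l (n + κ), Fp j := by
    have e : ∑ k ∈ Finset.Icc 1 κ, Fp (n - k) =
        ∑ j ∈ (Finset.Icc 1 κ).image (fun k => n - k), Fp j := by
      rw [Finset.sum_image]
      intro a ha b hb hab
      rw [Finset.mem_coe, Finset.mem_Icc] at ha hb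
      simp only at hab
      omega
    rw [e]
    apply Finset.sum_le_sum_of_subset_of_nonneg
    · intro j hj
      rw [Finset.mem_image] at hj
      obtain ⟨k, hk, rfl⟩ := hj
      rw [Finset.mem_Icc] at hk ⊢
      omega
    · intro j hj _
      exact hposs j hj
  have hF := (Fp_pos hn).le
  have hsn : 0 < Real.sqrt n := Real.sqrt_pos.mpr hn0
  have hl0 : (0 : ℝ) < l := by
    have : 0 < l := by omega
    exact_mod_cast this
  have hsl : 0 < Real.sqrt l := Real.sqrt_pos.mpr hl0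
  have hsnl : Real.sqrt n ≤ 2 * Real.sqrt l := by
    have h1 : Real.sqrt n ≤ Real.sqrt (2 ^ 2 * l) := by
      apply Real.sqrt_le_sqrt
      have : (n : ℝ) ≤ 2 * l := by exact_mod_cast hl2
      linarith
    rwa [Real.sqrt_mul (by norm_num), Real.sqrt_sq (by norm_num)] at h1
  have hT : Kt / Real.sqrt l ≤ 2 * Kt / Real.sqrt n := by
    rw [div_le_div_iff₀ hsl hsn]
    nlinarith
  have h1 : κ * (Fp n / 2) ≤ 4 * Kt / Real.sqrt n := by
    calc κ * (Fp n / 2) ≤ Kt / Real.sqrt l + Kt / Real.sqrt l := by linarith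
      _ ≤ 2 * Kt / Real.sqrt n + 2 * Kt / Real.sqrt n := by linarith
      _ = _ := by ring
  have h2 : Real.sqrt n / (8 * Real.sqrt D) ≤ κ := by
    refine le_trans (le_of_eq ?_) hκ3
    rw [Real.sqrt_div hn0.le, Real.sqrt_mul (by norm_num)]
    have : Real.sqrt 16 = 4 := by
      rw [show (16 : ℝ) = 4 ^ 2 by norm_num, Real.sqrt_sq (by norm_num)]
    rw [this]
    field_simp
    norm_num
  have hsD : Real.sqrt D ≤ D := by
    rw [Real.sqrt_le_left (by linarith)]
    nlinarith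
  have hsD0 : 0 < Real.sqrt D := Real.sqrt_pos.mpr (by linarith)
  have h3 : Real.sqrt n / (8 * Real.sqrt D) * (Fp n / 2) ≤ 4 * Kt / Real.sqrt n := by
    refine le_trans ?_ h1
    gcongr
  have h4 : Fp n * n ≤ 64 * Kt * Real.sqrt D := by
    have h5 : Real.sqrt n * Real.sqrt n = n := Real.mul_self_sqrt hn0.le
    rw [le_div_iff₀ hsn] at h3
    have e : Real.sqrt n / (8 * Real.sqrt D) * (Fp n / 2) * Real.sqrt n =
        Fp n * (Real.sqrt n * Real.sqrt n) / (16 * Real.sqrt D) := by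
      field_simp
      ring
    rw [e, h5, div_le_iff₀ (by positivity)] at h3
    linarith
  rw [le_div_iff₀ hn0]
  have h5 : 64 * Kt * Real.sqrt D ≤ 64 * Kt * D := by gcongr
  have h6 : 0 ≤ S * M0 := by positivity
  linarith

end Pool.Agent.TH546.PC
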