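import Pool.Agent.TH546.PC.Bound
import Pool.Agent.W870.Pg.Fin

/-!
Tail bound and logarithmic sum for the normalised numbers of polygons.
-/

set_option autoImplicit false

namespace Pool.Agent.TH546.PC

open Pool.Agent.W870.Pg Pool.Agent.H924P H981 Filter Topology

/-- sum over long high polygons -/
lemma tail_h {h n M : ℕ} (hh : 1 ≤ h) (hn : 2 ≤ n) (hhn : (2 * h + 7) ^ 2 ≤ 2 * n) :
    ∑ j ∈ Finset.Icc n M, Fp j ≤ 4800 * mu ^ 15 / h := by
  classical
  have hmu := mu_pos
  have hmu1 : 1 ≤ mu := one_le_mu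
  have h1 : ∀ j ∈ Finset.Icc n M, Fp j ≤ 2 * (((VF h (2 * j - 1)).card : ℝ) * mu⁻¹ ^ (2 * j - 1)) := by
    intro j hj
    rw [Finset.mem_Icc] at hj
    have h2 := high_le (N := j) (M := 2 * h + 6) (by omega) (by
      calc (2 * h + 6 + 1) ^ 2 = (2 * h + 7) ^ 2 := by ring
        _ ≤ 2 * n := hhn
        _ ≤ 2 * j := by omega)
    have h3 : PP j ≤ 2 * ((VF h (2 * j - 1)).card : ℝ) := by
      have h4 : PP j / 2 ≤ ((VF h (2 * j - 1)).card : ℝ) := by
        unfold VF
        exact h2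
      linarith
    unfold Fp
    rw [div_le_iff₀ (by positivity)]
    have e : mu ^ (2 * j) = mu ^ (2 * j - 1) * mu := by
      rw [← pow_succ]; congr 1; omega
    rw [e, inv_pow]
    have h5 : mu ^ (2 * j - 1) ≠ 0 := (pow_pos hmu _).ne'
    calc PP j ≤ 2 * ((VF h (2 * j - 1)).card : ℝ) := h3
      _ ≤ 2 * ((VF h (2 * j - 1)).card : ℝ) * mu := le_mul_of_one_le_right (by positivity) hmu1
      _ = _ := by field_simp
  have h2 : ∑ j ∈ Finset.Icc n M, ((VF h (2 * j - 1)).card : ℝ) * mu⁻¹ ^ (2 * j - 1) ≤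
      VV h (2 * M) := by
    unfold VV
    have e : ∑ j ∈ Finset.Icc n M, ((VF h (2 * j - 1)).card : ℝ) * mu⁻¹ ^ (2 * j - 1) =
        ∑ m ∈ (Finset.Icc n M).image (fun j => 2 * j - 1), ((VF h m).card : ℝ) * mu⁻¹ ^ m := by
      rw [Finset.sum_image]
      intro a ha b hb hab
      rw [Finset.mem_coe, Finset.mem_Icc] at ha hb
      simp only at hab
      omega
    rw [e]
    apply Finset.sum_le_sum_of_subset_of_nonneg
    · intro m hm
      rw [Finset.mem_image] at hm
      obtain ⟨j, hj, rfl⟩ := hm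
      rw [Finset.mem_Icc] at hj
      rw [Finset.mem_range]
      omega
    · intro m _ _
      positivity
  have h3 := VV_bound h (2 * M)
  have hh' : (0 : ℝ) < h := by exact_mod_cast hh
  have h4 : VV h (2 * M) ≤ 2400 * mu ^ 15 / h := by
    rw [le_div_iff₀ hh']
    linarith
  calc ∑ j ∈ Finset.Icc n M, Fp j
      ≤ ∑ j ∈ Finset.Icc n M, 2 * (((VF h (2 * j - 1)).card : ℝ) * mu⁻¹ ^ (2 * j - 1)) :=
        Finset.sum_le_sum h1
    _ = 2 * ∑ j ∈ Finset.Icc n M, ((VF h (2 * j - 1)).card : ℝ) * mu⁻¹ ^ (2 * j - 1) := by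
        rw [Finset.mul_sum]
    _ ≤ 2 * (2400 * mu ^ 15 / h) := by linarith
    _ = _ := by ring

/-- the tail for large `n` -/
lemma tail_large {n M : ℕ} (hn : 200 ≤ n) :
    ∑ j ∈ Finset.Icc n M, Fp j ≤ 38400 * mu ^ 15 / Real.sqrt n := by
  have hmu := mu_pos
  obtain ⟨r, hr⟩ : ∃ r, r = Nat.sqrt (2 * n) := ⟨_, rfl⟩
  have hr1 : r * r ≤ 2 * n := by rw [hr]; exact Nat.sqrt_le _
  have hr2 : 2 * n < (r + 1) * (r + 1) := by rw [hr]; exact Nat.lt_succ_sqrt _
  have hr20 : 20 ≤ r := by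
    by_contra hcon
    push Not at hcon
    have : (r + 1) * (r + 1) ≤ 20 * 20 := Nat.mul_le_mul (by omega) (by omega)
    omega
  obtain ⟨h, hh⟩ : ∃ h, h = (r - 7) / 2 := ⟨_, rfl⟩
  have h1 : 2 * h + 7 ≤ r := by omega
  have h2 : r ≤ 4 * h := by omega
  have h3 := tail_h (h := h) (n := n) (M := M) (by omega) (by omega) (by
    calc (2 * h + 7) ^ 2 ≤ r ^ 2 := Nat.pow_le_pow_left h1 2
      _ = r * r := by ring
      _ ≤ 2 * n := hr1)
  refine h3.trans ?_
  have hh0 : (0 : ℝ) < h := by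
    have : 0 < h := by omega
    exact_mod_cast this
  have hn0 : (0 : ℝ) < n := by
    have : 0 < n := by omega
    exact_mod_cast this
  have hs : 0 < Real.sqrt n := Real.sqrt_pos.mpr hn0
  have h4 : Real.sqrt n ≤ 8 * h := by
    rw [Real.sqrt_le_left (by positivity)]
    have h5 : 2 * n < (8 * h) * (8 * h) := by
      calc 2 * n < (r + 1) * (r + 1) := hr2
        _ ≤ (8 * h) * (8 * h) := Nat.mul_le_mul (by omega) (by omega)
    have h6 : (2 * n : ℝ) ≤ (8 * h) * (8 * h) := by exact_mod_cast h5.le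
    nlinarith
  rw [div_le_div_iff₀ hh0 hs]
  calc 4800 * mu ^ 15 * Real.sqrt n ≤ 4800 * mu ^ 15 * (8 * h) := by gcongr
    _ = _ := by ring

/-- **The tail** -/
theorem tail : ∃ K : ℝ, 0 ≤ K ∧ ∀ n M : ℕ, 2 ≤ n →
    ∑ j ∈ Finset.Icc n M, Fp j ≤ K / Real.sqrt n := by
  have hmu := mu_pos
  obtain ⟨S, hS⟩ : ∃ S, S = ∑ j ∈ Finset.Icc 2 200, Fp j := ⟨_, rfl⟩
  have hS0 : 0 ≤ S := by
    rw [hS]
    exact Finset.sum_nonneg (fun j hj => (Fp_pos (Finset.mem_Icc.mp hj).1).le)
  refine ⟨15 * (S + 38400 * mu ^ 15), by positivity, fun n M hn => ?_⟩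
  have hn0 : (0 : ℝ) < n := by
    have : 0 < n := by omega
    exact_mod_cast this
  have hs : 0 < Real.sqrt n := Real.sqrt_pos.mpr hn0
  by_cases hc : 200 ≤ n
  · refine (tail_large hc).trans ?_
    apply div_le_div_of_nonneg_right _ hs.le
    have : 0 ≤ 38400 * mu ^ 15 := by positivity
    linarith
  · push Not at hc
    have h1 := tail_large (n := 200) (M := M) le_rfl
    have h2 : ∑ j ∈ Finset.Icc n M, Fp j ≤ ∑ j ∈ Finset.Icc 2 200, Fp j +
        ∑ j ∈ Finset.Icc 200 M, Fp j := by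
      calc ∑ j ∈ Finset.Icc n M, Fp j ≤ ∑ j ∈ Finset.Icc 2 200 ∪ Finset.Icc 200 M, Fp j := by
            apply Finset.sum_le_sum_of_subset_of_nonneg
            · intro j hj
              rw [Finset.mem_Icc] at hj
              rw [Finset.mem_union, Finset.mem_Icc, Finset.mem_Icc]
              omega
            · intro j hj _
              rw [Finset.mem_union, Finset.mem_Icc, Finset.mem_Icc] at hj
              exact (Fp_pos (by omega)).le
        _ ≤ _ := by
            rw [← Finset.sum_union_inter]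
            have : 0 ≤ ∑ j ∈ Finset.Icc 2 200 ∩ Finset.Icc 200 M, Fp j := by
              apply Finset.sum_nonneg
              intro j hj
              rw [Finset.mem_inter, Finset.mem_Icc, Finset.mem_Icc] at hj
              exact (Fp_pos (by omega)).le
            linarith
    have h3 : (1 : ℝ) ≤ Real.sqrt 200 := by
      rw [Real.one_le_sqrt]; norm_num
    have h4 : 38400 * mu ^ 15 / Real.sqrt ((200 : ℕ) : ℝ) ≤ 38400 * mu ^ 15 := by
      apply div_le_self (by positivity)
      exact_mod_cast h3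
    have h5 : Real.sqrt n ≤ 15 := by
      rw [Real.sqrt_le_left (by norm_num)]
      have : (n : ℝ) ≤ 200 := by exact_mod_cast hc.le
      linarith
    rw [le_div_iff₀ hs]
    calc (∑ j ∈ Finset.Icc n M, Fp j) * Real.sqrt n ≤ (S + 38400 * mu ^ 15) * 15 := by
          have h6 : ∑ j ∈ Finset.Icc n M, Fp j ≤ S + 38400 * mu ^ 15 := by
            rw [hS]; linarith
          have h7 : 0 ≤ S + 38400 * mu ^ 15 := by positivity
          exact mul_le_mul h6 h5 hs.le h7
      _ = _ := by ring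

/-- the level sets of the height -/
lemma ht_sum {n : ℕ} {j : ℕ} (hj : j ≤ n) (hj1 : 1 ≤ j) :
    ∑ g ∈ CanF (2 * j - 1), (ht g : ℝ) = ∑ i ∈ Finset.Icc 1 (2 * n),
      ((open Classical in (CanF (2 * j - 1)).filter (fun g => i ≤ ht g)).card : ℝ) := by
  classical
  have h1 : ∀ g ∈ CanF (2 * j - 1), (ht g : ℝ) =
      ∑ i ∈ Finset.Icc 1 (2 * n), (if i ≤ ht g then (1 : ℝ) else 0) := by
    intro g hg
    rw [mem_CanF] at hg
    have h2 := ht_le_length hg.1
    rw [← Finset.sum_filter]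
    have e : (Finset.Icc 1 (2 * n)).filter (fun i => i ≤ ht g) = Finset.Icc 1 (ht g) := by
      ext i
      rw [Finset.mem_filter, Finset.mem_Icc, Finset.mem_Icc]
      omega
    rw [e, Finset.sum_const, Nat.card_Icc, nsmul_eq_mul, mul_one, Nat.add_sub_cancel]
  rw [Finset.sum_congr rfl h1, Finset.sum_comm]
  apply Finset.sum_congr rfl
  intro i _
  rw [← Finset.sum_filter, Finset.sum_const, nsmul_eq_mul, mul_one]

/-- **The sum with the mean widths** -/
theorem log_sum : ∃ K : ℝ, 0 ≤ K ∧ ∀ n : ℕ, 2 ≤ n →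
    ∑ j ∈ Finset.Icc 2 n, MW j * Fp j ≤ K * Real.log n := by
  classical
  have hmu := mu_pos
  have hmu1 : 1 ≤ mu := one_le_mu
  obtain ⟨K0, hK0, htail⟩ := tail
  have hl2 : 0 < Real.log 2 := Real.log_pos (by norm_num)
  obtain ⟨C1, hC1⟩ : ∃ C1 : ℝ, C1 = 38400 * mu ^ 15 := ⟨_, rfl⟩
  have hC10 : 0 ≤ C1 := by rw [hC1]; positivity
  refine ⟨(16 * K0 + C1) / Real.log 2 + 3 * C1, by positivity, fun n hn => ?_⟩
  have hn' : (2 : ℝ) ≤ n := by exact_mod_cast hn
  have hln : Real.log 2 ≤ Real.log n := Real.log_le_log (by norm_num) hn'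
  -- the weight at height at least `i`
  set U : ℕ → ℝ := fun i => ∑ j ∈ Finset.Icc 2 n,
    (((CanF (2 * j - 1)).filter (fun g => i ≤ ht g)).card : ℝ) * mu⁻¹ ^ (2 * j) with hU
  have hU0 : ∀ i, 0 ≤ U i := fun i => Finset.sum_nonneg (fun j _ =>
    mul_nonneg (Nat.cast_nonneg _) (pow_nonneg (inv_nonneg.mpr hmu.le) _))
  have hU1 : ∀ i, U i ≤ 2 * K0 := by
    intro i
    have h1 : U i ≤ ∑ j ∈ Finset.Icc 2 n, 2 * Fp j := by
      rw [hU]
      apply Finset.sum_le_sum
      intro j hj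
      rw [Finset.mem_Icc] at hj
      have h2 := nn_le_PP hj.1
      have h3 : (((CanF (2 * j - 1)).filter (fun g => i ≤ ht g)).card : ℝ) ≤ nn j := by
        unfold nn
        exact_mod_cast Finset.card_le_card (Finset.filter_subset _ _)
      unfold Fp
      rw [inv_pow]
      have h4 : 0 < mu ^ (2 * j) := pow_pos hmu _
      calc (((CanF (2 * j - 1)).filter (fun g => i ≤ ht g)).card : ℝ) * (mu ^ (2 * j))⁻¹
          ≤ (2 * PP j) * (mu ^ (2 * j))⁻¹ := by
            apply mul_le_mul_of_nonneg_right (h3.trans h2) (by positivity)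
        _ = _ := by ring
    have h2 := htail 2 n le_rfl
    have h3 : K0 / Real.sqrt ((2 : ℕ) : ℝ) ≤ K0 := by
      apply div_le_self hK0
      rw [Real.one_le_sqrt]
      norm_num
    rw [← Finset.mul_sum] at h1
    linarith
  have hU2 : ∀ i, 8 ≤ i → U i ≤ C1 / i := by
    intro i hi
    obtain ⟨h, hh⟩ : ∃ h, h = (i - 6) / 2 := ⟨_, rfl⟩
    have h1 : U i ≤ VV h (2 * n) := by
      rw [hU]
      unfold VV
      have e : ∀ j ∈ Finset.Icc 2 n,
          (((CanF (2 * j - 1)).filter (fun g => i ≤ ht g)).card : ℝ) * mu⁻¹ ^ (2 * j) ≤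
          ((VF h (2 * j - 1)).card : ℝ) * mu⁻¹ ^ (2 * j - 1) := by
        intro j hj
        rw [Finset.mem_Icc] at hj
        have h2 : ((CanF (2 * j - 1)).filter (fun g => i ≤ ht g)).card ≤ (VF h (2 * j - 1)).card := by
          apply Finset.card_le_card
          intro g hg
          rw [Finset.mem_filter, mem_CanF] at hg
          rw [mem_VF]
          exact ⟨hg.1, by omega⟩
        have h3 : mu⁻¹ ^ (2 * j) ≤ mu⁻¹ ^ (2 * j - 1) := by
          apply pow_le_pow_of_le_one (by positivity) (inv_le_one_of_one_le₀ hmu1) (by omega)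
        have h4 : (((CanF (2 * j - 1)).filter (fun g => i ≤ ht g)).card : ℝ) ≤
          ((VF h (2 * j - 1)).card : ℝ) := by exact_mod_cast h2
        exact mul_le_mul h4 h3 (pow_nonneg (inv_nonneg.mpr hmu.le) _) (Nat.cast_nonneg _)
      refine (Finset.sum_le_sum e).trans ?_
      have e2 : ∑ j ∈ Finset.Icc 2 n, ((VF h (2 * j - 1)).card : ℝ) * mu⁻¹ ^ (2 * j - 1) =
          ∑ m ∈ (Finset.Icc 2 n).image (fun j => 2 * j - 1), ((VF h m).card : ℝ) * mu⁻¹ ^ m := by
        rw [Finset.sum_image]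
        intro a ha b hb hab
        rw [Finset.mem_coe, Finset.mem_Icc] at ha hb
        simp only at hab
        omega
      rw [e2]
      apply Finset.sum_le_sum_of_subset_of_nonneg
      · intro m hm
        rw [Finset.mem_image] at hm
        obtain ⟨j, hj, rfl⟩ := hm
        rw [Finset.mem_Icc] at hj
        rw [Finset.mem_range]
        omega
      · intro m _ _
        exact mul_nonneg (Nat.cast_nonneg _) (pow_nonneg (inv_nonneg.mpr hmu.le) _)
    have h2 := VV_bound h (2 * n)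
    have h3 : i ≤ 16 * h := by omega
    have hi0 : (0 : ℝ) < i := by
      have : 0 < i := by omega
      exact_mod_cast this
    have h4 : (i : ℝ) ≤ 16 * h := by exact_mod_cast h3
    have h5 := VV_nonneg h (2 * n)
    rw [le_div_iff₀ hi0]
    calc U i * i ≤ VV h (2 * n) * (16 * h) := by
          exact mul_le_mul h1 h4 hi0.le h5
      _ = 16 * (h * VV h (2 * n)) := by ring
      _ ≤ 16 * (2400 * mu ^ 15) := by linarith
      _ = C1 := by rw [hC1]; ring
  -- the sum
  have h1 : ∑ j ∈ Finset.Icc 2 n, MW j * Fp j ≤ ∑ i ∈ Finset.Icc 1 (2 * n), U i := by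
    rw [hU]
    rw [Finset.sum_comm]
    apply Finset.sum_le_sum
    intro j hj
    rw [Finset.mem_Icc] at hj
    have h2 := MW_le hj.1
    rw [ht_sum hj.2 (by omega)] at h2
    rw [← Finset.sum_mul]
    have h4 : 0 < mu ^ (2 * j) := pow_pos hmu _
    have e : MW j * Fp j = (MW j * PP j) * mu⁻¹ ^ (2 * j) := by
      unfold Fp; rw [inv_pow]; ring
    rw [e]
    apply mul_le_mul_of_nonneg_right _ (by positivity)
    convert h2
  have h2 : ∑ i ∈ Finset.Icc 1 (2 * n), U i ≤ 16 * K0 + C1 * (1 + Real.log (2 * n)) := by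
    have h3 : ∀ i ∈ Finset.Icc 1 (2 * n), U i ≤ (if i < 8 then 2 * K0 else 0) + C1 * (i : ℝ)⁻¹ := by
      intro i hi
      rw [Finset.mem_Icc] at hi
      have hi0 : (0 : ℝ) < i := by
        have : 0 < i := by omega
        exact_mod_cast this
      split_ifs with h8
      · have := hU1 i
        have h9 : 0 ≤ C1 * (i : ℝ)⁻¹ := by positivity
        linarith
      · have := hU2 i (by omega)
        rw [zero_add, ← div_eq_mul_inv]
        exact this
    refine (Finset.sum_le_sum h3).trans ?_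
    rw [Finset.sum_add_distrib, ← Finset.mul_sum]
    have h4 : ∑ i ∈ Finset.Icc 1 (2 * n), (if i < 8 then 2 * K0 else (0 : ℝ)) ≤ 16 * K0 := by
      rw [← Finset.sum_filter, Finset.sum_const, nsmul_eq_mul]
      have h5 : ((Finset.Icc 1 (2 * n)).filter (fun i => i < 8)).card ≤ 8 := by
        calc _ ≤ (Finset.range 8).card := by
              apply Finset.card_le_card
              intro i hi
              rw [Finset.mem_filter] at hi
              rw [Finset.mem_range]
              exact hi.2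
          _ = 8 := Finset.card_range 8
      have h6 : (((Finset.Icc 1 (2 * n)).filter (fun i => i < 8)).card : ℝ) ≤ 8 := by
        exact_mod_cast h5
      calc _ ≤ 8 * (2 * K0) := by
            apply mul_le_mul_of_nonneg_right h6 (by positivity)
        _ = _ := by ring
    have h5 : ∑ i ∈ Finset.Icc 1 (2 * n), ((i : ℝ))⁻¹ ≤ 1 + Real.log (2 * n) := by
      have h6 := harmonic_le_one_add_log (2 * n)
      rw [harmonic_eq_sum_Icc] at h6
      push_cast at h6
      exact h6
    have h6 := mul_le_mul_of_nonneg_left h5 hC10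
    linarith
  have h3 : Real.log (2 * n) ≤ 2 * Real.log n := by
    rw [Real.log_mul (by norm_num) (by linarith)]
    linarith
  have h4 : C1 * Real.log (2 * n) ≤ C1 * (2 * Real.log n) := mul_le_mul_of_nonneg_left h3 hC10
  have h5 : (16 * K0 + C1) ≤ (16 * K0 + C1) / Real.log 2 * Real.log n := by
    rw [div_mul_eq_mul_div, le_div_iff₀ hl2]
    apply mul_le_mul_of_nonneg_left hln (by positivity)
  have h6 : 0 ≤ C1 * Real.log n := by
    apply mul_nonneg hC10; linarith
  calc _ ≤ _ := h1.trans h2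
    _ ≤ ((16 * K0 + C1) / Real.log 2 + 3 * C1) * Real.log n := by
      rw [add_mul]
      nlinarith

end Pool.Agent.TH546.PC
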